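import Mathlib

set_option autoImplicit false

open Filter Topology ContinuousLinearMap

namespace Pool.Agent.Lib.MP_0de7f2_an

variable {K H : Type} [NormedAddCommGroup K] [InnerProductSpace ℂ K] [CompleteSpace K]
  [NormedAddCommGroup H] [InnerProductSpace ℂ H] [CompleteSpace H]

/-- A decomposition of `H` as the orthogonal sum of two copies of `K`. -/
structure Blocks (K H : Type) [NormedAddCommGroup K] [InnerProductSpace ℂ K] [CompleteSpace K]
    [NormedAddCommGroup H] [InnerProductSpace ℂ H] [CompleteSpace H] where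
  i1 : K →L[ℂ] H
  i2 : K →L[ℂ] H
  p1 : H →L[ℂ] K
  p2 : H →L[ℂ] K
  h11 : ∀ x, p1 (i1 x) = x
  h12 : ∀ x, p1 (i2 x) = 0
  h21 : ∀ x, p2 (i1 x) = 0
  h22 : ∀ x, p2 (i2 x) = x
  hsum : ∀ y, i1 (p1 y) + i2 (p2 y) = y
  a1 : adjoint i1 = p1
  a2 : adjoint i2 = p2

/-- A continuous nest of multiplicity one, indexed by `ι`. -/
structure Nest (ι K : Type) [NormedAddCommGroup K] [InnerProductSpace ℂ K] [CompleteSpace K] where
  P : ι → (K →L[ℂ] K)
  sa : ∀ i, star (P i) = P i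
  tot : ∀ i j, (P i * P j = P i ∧ P j * P i = P i) ∨ (P i * P j = P j ∧ P j * P i = P j)
  comm : ∀ x y : K →L[ℂ] K, (∀ i, x * P i = P i * x) → (∀ i, y * P i = P i * y) → x * y = y * x
  diffuse : ∀ ζ : K, (∀ i, P i ζ = 0 ∨ P i ζ = ζ) → ζ = 0

namespace Nest

variable {ι : Type} (N : Nest ι K)

lemma idem (i : ι) : N.P i * N.P i = N.P i := by
  rcases N.tot i i with h | h <;> exact h.1

/-- The nest algebra. -/
def Mem (x : K →L[ℂ] K) : Prop := ∀ i, x * N.P i = N.P i * (x * N.P i)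

/-- The diagonal masa. -/
def Dg (x : K →L[ℂ] K) : Prop := ∀ i, x * N.P i = N.P i * x

lemma Dg.mem {N : Nest ι K} {x : K →L[ℂ] K} (h : N.Dg x) : N.Mem x := by
  intro i
  rw [h i, ← mul_assoc, N.idem]

lemma Dg.star {N : Nest ι K} {x : K →L[ℂ] K} (h : N.Dg x) : N.Dg (star x) := by
  intro i
  have := congrArg Star.star (h i)
  rw [star_mul, star_mul, N.sa] at this
  exact this.symm

lemma dg_of_mem_star {x : K →L[ℂ] K} (h : N.Mem x) (h' : N.Mem (star x)) : N.Dg x := by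
  intro i
  have h2 := congrArg Star.star (h' i)
  rw [star_mul, star_mul, star_mul, star_star, N.sa] at h2
  rw [h i, h2, mul_assoc]

lemma mem_mul {x y : K →L[ℂ] K} (hx : N.Mem x) (hy : N.Mem y) : N.Mem (x * y) := by
  intro i
  calc x * y * N.P i = x * (y * N.P i) := mul_assoc _ _ _
    _ = x * (N.P i * (y * N.P i)) := by rw [← hy i]
    _ = (x * N.P i) * (y * N.P i) := by rw [mul_assoc]
    _ = (N.P i * (x * N.P i)) * (y * N.P i) := by rw [← hx i]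
    _ = N.P i * (x * (N.P i * (y * N.P i))) := by simp only [mul_assoc]
    _ = N.P i * (x * (y * N.P i)) := by rw [← hy i]
    _ = N.P i * (x * y * N.P i) := by rw [mul_assoc x y]

lemma mem_add {x y : K →L[ℂ] K} (hx : N.Mem x) (hy : N.Mem y) : N.Mem (x + y) := by
  intro i
  rw [add_mul, mul_add, ← hx i, ← hy i]

lemma mem_smul (c : ℂ) {x : K →L[ℂ] K} (hx : N.Mem x) : N.Mem (c • x) := by
  intro i
  rw [smul_mul_assoc, mul_smul_comm, ← hx i]

lemma dg_one : N.Dg 1 := by intro i; rw [one_mul, mul_one]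

lemma dg_zero : N.Dg 0 := by intro i; rw [zero_mul, mul_zero]

lemma dg_P (j : ι) : N.Dg (N.P j) := by
  intro i
  rcases N.tot i j with h | h
  · rw [h.1, h.2]
  · rw [h.1, h.2]

lemma dg_mul {x y : K →L[ℂ] K} (hx : N.Dg x) (hy : N.Dg y) : N.Dg (x * y) := by
  intro i
  rw [mul_assoc, hy i, ← mul_assoc, hx i, mul_assoc]

lemma dg_add {x y : K →L[ℂ] K} (hx : N.Dg x) (hy : N.Dg y) : N.Dg (x + y) := by
  intro i
  rw [add_mul, hx i, hy i, mul_add]

lemma dg_smul (c : ℂ) {x : K →L[ℂ] K} (hx : N.Dg x) : N.Dg (c • x) := by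
  intro i
  rw [smul_mul_assoc, hx i, mul_smul_comm]

/-- Off-diagonal corners belong to the nest algebra. -/
lemma mem_corner (i : ι) (x : K →L[ℂ] K) : N.Mem (N.P i * x * (1 - N.P i)) := by
  intro j
  rcases N.tot i j with h | h
  · -- P i ≤ P j
    have : N.P j * (N.P i * x * (1 - N.P i) * N.P j) = (N.P j * N.P i) * x * (1 - N.P i) * N.P j := by
      simp only [mul_assoc]
    rw [this, h.2]
  · have h2 : (1 - N.P i) * N.P j = 0 := by rw [sub_mul, one_mul, h.1, sub_self]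
    rw [mul_assoc (N.P i * x), h2, mul_zero, mul_zero]

end Nest

/-- Asymptotic homomorphisms on a nest algebra, together with an invertible element that they
send to zero. -/
structure Asym {ι : Type} (N : Nest ι K) where
  Θ : ℕ → (K →L[ℂ] K) →ₗ[ℂ] (K →L[ℂ] K)
  mul : ∀ m x y, N.Mem x → N.Mem y → Θ m (x * y) = Θ m x * Θ m y
  dg_bdd : ∀ x, N.Dg x → ∃ C : ℝ, ∀ m, ‖Θ m x‖ ≤ C
  dg_tendsto : ∀ x, N.Dg x → ∀ ξ, Tendsto (fun m => Θ m x ξ) atTop (𝓝 (x ξ))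
  corner : ∀ i x, ∀ᶠ m in atTop, Θ m (N.P i * x * (1 - N.P i)) = 0
  a : K →L[ℂ] K
  b : K →L[ℂ] K
  a_mem : N.Mem a
  b_mem : N.Mem b
  ba : b * a = 1
  a_bdd : ∃ C : ℝ, ∀ m, ‖Θ m a‖ ≤ C
  a_tendsto : ∀ ξ, Tendsto (fun m => Θ m a ξ) atTop (𝓝 0)

namespace Asym

variable {ι : Type} {N : Nest ι K} (S : Asym N)

/-- Bounded strong convergence. -/
def Conv (x d : K →L[ℂ] K) : Prop :=
  N.Mem x ∧ (∃ C : ℝ, ∀ m, ‖S.Θ m x‖ ≤ C) ∧ ∀ ξ, Tendsto (fun m => S.Θ m x ξ) atTop (𝓝 (d ξ))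

lemma Conv.add {x y d e : K →L[ℂ] K} (hx : S.Conv x d) (hy : S.Conv y e) :
    S.Conv (x + y) (d + e) := by
  obtain ⟨h1, ⟨C, hC⟩, h3⟩ := hx
  obtain ⟨g1, ⟨C', hC'⟩, g3⟩ := hy
  refine ⟨N.mem_add h1 g1, ⟨C + C', fun m => ?_⟩, fun ξ => ?_⟩
  · rw [map_add]
    exact (norm_add_le _ _).trans (add_le_add (hC m) (hC' m))
  · have := (h3 ξ).add (g3 ξ)
    simpa [map_add] using this

lemma Conv.smul (c : ℂ) {x d : K →L[ℂ] K} (hx : S.Conv x d) : S.Conv (c • x) (c • d) := by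
  obtain ⟨h1, ⟨C, hC⟩, h3⟩ := hx
  refine ⟨N.mem_smul c h1, ⟨‖c‖ * C, fun m => ?_⟩, fun ξ => ?_⟩
  · rw [map_smul, norm_smul]
    exact mul_le_mul_of_nonneg_left (hC m) (norm_nonneg c)
  · have := (h3 ξ).const_smul c
    simpa [map_smul] using this

lemma Conv.mul {x y d e : K →L[ℂ] K} (hx : S.Conv x d) (hy : S.Conv y e) :
    S.Conv (x * y) (d * e) := by
  obtain ⟨h1, ⟨C, hC⟩, h3⟩ := hx
  obtain ⟨g1, ⟨C', hC'⟩, g3⟩ := hy
  refine ⟨N.mem_mul h1 g1, ⟨C * C', fun m => ?_⟩, fun ξ => ?_⟩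
  · rw [S.mul m x y h1 g1]
    have hC0 : 0 ≤ C := (norm_nonneg _).trans (hC m)
    exact (norm_mul_le _ _).trans (mul_le_mul (hC m) (hC' m) (norm_nonneg _) hC0)
  · have e1 : ∀ m, S.Θ m (x * y) ξ = S.Θ m x (S.Θ m y ξ - e ξ) + S.Θ m x (e ξ) := by
      intro m
      rw [S.mul m x y h1 g1, map_sub]
      simp
    have e2 : Tendsto (fun m => S.Θ m x (S.Θ m y ξ - e ξ)) atTop (𝓝 0) := by
      have e3 : Tendsto (fun m => C * ‖S.Θ m y ξ - e ξ‖) atTop (𝓝 0) := by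
        have : Tendsto (fun m => S.Θ m y ξ - e ξ) atTop (𝓝 0) := by
          have := (g3 ξ).sub_const (e ξ)
          simpa using this
        have := (this.norm).const_mul C
        simpa using this
      apply squeeze_zero_norm _ e3
      intro m
      exact (S.Θ m x).le_of_opNorm_le (hC m) _
    have e4 := e2.add (h3 (e ξ))
    rw [zero_add] at e4
    simp only [e1]
    exact e4

lemma conv_dg {x : K →L[ℂ] K} (h : N.Dg x) : S.Conv x x :=
  ⟨h.mem, S.dg_bdd x h, S.dg_tendsto x h⟩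

lemma conv_corner (i : ι) (x : K →L[ℂ] K) : S.Conv (N.P i * x * (1 - N.P i)) 0 := by
  refine ⟨N.mem_corner i x, ?_, ?_⟩
  · obtain ⟨M, hM⟩ := (S.corner i x).exists_forall_of_atTop
    refine ⟨∑ m ∈ Finset.range M, ‖S.Θ m (N.P i * x * (1 - N.P i))‖, fun m => ?_⟩
    by_cases hm : m < M
    · exact Finset.single_le_sum (f := fun m => ‖S.Θ m (N.P i * x * (1 - N.P i))‖)
        (fun _ _ => norm_nonneg _) (Finset.mem_range.mpr hm)
    · rw [hM m (by omega), norm_zero]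
      exact Finset.sum_nonneg (fun _ _ => norm_nonneg _)
  · intro ξ
    apply Tendsto.congr' _ tendsto_const_nhds
    filter_upwards [S.corner i x] with m hm
    rw [hm]

lemma conv_a : S.Conv S.a 0 := ⟨S.a_mem, S.a_bdd, by simpa using S.a_tendsto⟩

/-- The algebra of operators with a symbol. -/
def BB (x : K →L[ℂ] K) : Prop := ∃ d, N.Dg d ∧ S.Conv x d

/-- The ideal of operators with zero symbol. -/
def II (x : K →L[ℂ] K) : Prop := S.Conv x 0

lemma BB.add {x y : K →L[ℂ] K} (hx : S.BB x) (hy : S.BB y) : S.BB (x + y) := by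
  obtain ⟨d, hd, h⟩ := hx
  obtain ⟨e, he, h'⟩ := hy
  exact ⟨d + e, N.dg_add hd he, h.add S h'⟩

lemma BB.mul {x y : K →L[ℂ] K} (hx : S.BB x) (hy : S.BB y) : S.BB (x * y) := by
  obtain ⟨d, hd, h⟩ := hx
  obtain ⟨e, he, h'⟩ := hy
  exact ⟨d * e, N.dg_mul hd he, h.mul S h'⟩

lemma II.bb {x : K →L[ℂ] K} (hx : S.II x) : S.BB x := ⟨0, N.dg_zero, hx⟩

lemma II.add {x y : K →L[ℂ] K} (hx : S.II x) (hy : S.II y) : S.II (x + y) := by
  have := Conv.add S hx hy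
  rwa [add_zero] at this

lemma II.mul_right {x y : K →L[ℂ] K} (hx : S.II x) (hy : S.BB y) : S.II (x * y) := by
  obtain ⟨e, he, h'⟩ := hy
  have := Conv.mul S hx h'
  rwa [zero_mul] at this

lemma II.mul_left {x y : K →L[ℂ] K} (hx : S.BB x) (hy : S.II y) : S.II (x * y) := by
  obtain ⟨e, he, h'⟩ := hx
  have := Conv.mul S h' hy
  rwa [mul_zero] at this

lemma bb_dg {x : K →L[ℂ] K} (h : N.Dg x) : S.BB x := ⟨x, h, S.conv_dg h⟩

lemma II.eq_zero {x : K →L[ℂ] K} (hx : S.II x) (h : N.Dg x) : x = 0 := by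
  ext ξ
  exact tendsto_nhds_unique (S.dg_tendsto x h ξ) (by simpa using hx.2.2 ξ)

end Asym

namespace Blocks

variable (β : Blocks K H)

def e11 (x : H →L[ℂ] H) : K →L[ℂ] K := (β.p1 ∘L x) ∘L β.i1
def e12 (x : H →L[ℂ] H) : K →L[ℂ] K := (β.p1 ∘L x) ∘L β.i2
def e21 (x : H →L[ℂ] H) : K →L[ℂ] K := (β.p2 ∘L x) ∘L β.i1
def e22 (x : H →L[ℂ] H) : K →L[ℂ] K := (β.p2 ∘L x) ∘L β.i2

lemma e11_mul (x y : H →L[ℂ] H) : β.e11 (x * y) = β.e11 x * β.e11 y + β.e12 x * β.e21 y := by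
  ext ξ
  have h := β.hsum (y (β.i1 ξ))
  simp only [e11, e12, e21, coe_comp, Function.comp_apply, mul_apply_eq_comp, add_apply]
  nth_rewrite 1 [← h]
  rw [map_add, map_add]

lemma e12_mul (x y : H →L[ℂ] H) : β.e12 (x * y) = β.e11 x * β.e12 y + β.e12 x * β.e22 y := by
  ext ξ
  have h := β.hsum (y (β.i2 ξ))
  simp only [e11, e12, e22, coe_comp, Function.comp_apply, mul_apply_eq_comp, add_apply]
  nth_rewrite 1 [← h]
  rw [map_add, map_add]

lemma e21_mul (x y : H →L[ℂ] H) : β.e21 (x * y) = β.e21 x * β.e11 y + β.e22 x * β.e21 y := by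
  ext ξ
  have h := β.hsum (y (β.i1 ξ))
  simp only [e11, e21, e22, coe_comp, Function.comp_apply, mul_apply_eq_comp, add_apply]
  nth_rewrite 1 [← h]
  rw [map_add, map_add]

lemma e22_mul (x y : H →L[ℂ] H) : β.e22 (x * y) = β.e21 x * β.e12 y + β.e22 x * β.e22 y := by
  ext ξ
  have h := β.hsum (y (β.i2 ξ))
  simp only [e12, e21, e22, coe_comp, Function.comp_apply, mul_apply_eq_comp, add_apply]
  nth_rewrite 1 [← h]
  rw [map_add, map_add]

end Blocks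

end Pool.Agent.Lib.MP_0de7f2_an
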