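import Pool.Agent.Lib.MP_0de7f2_an.Conc

set_option autoImplicit false

open MeasureTheory Filter Topology ContinuousLinearMap Set

namespace Pool.Agent.Lib.MP_0de7f2_an

lemma floor_eq_of_mul {u v : ℝ} {r : ℕ} (hr : 0 < r) (h : ⌊u * r⌋ = ⌊v * r⌋) : ⌊u⌋ = ⌊v⌋ := by
  have hr' : (0 : ℝ) < r := by exact_mod_cast hr
  have key : ∀ (w : ℝ) (j : ℤ), j ≤ ⌊w⌋ ↔ j * r ≤ ⌊w * r⌋ := by
    intro w j
    rw [Int.le_floor, Int.le_floor]
    push_cast
    exact (mul_le_mul_iff_left₀ hr').symm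
  apply le_antisymm
  · rw [key v, ← h, ← key u]
  · rw [key u, h, ← key v]

/-- The step of level `n`. -/
noncomputable def hh (n : ℕ) : ℝ := 1 / ((n + 1).factorial : ℝ)

lemma hh_pos (n : ℕ) : 0 < hh n := by unfold hh; positivity

lemma hh_mul (n : ℕ) : hh n * ((n + 1).factorial : ℝ) = 1 := by
  unfold hh
  field_simp

lemma fac_pos (n : ℕ) : (0 : ℝ) < (n.factorial : ℝ) := by positivity

/-- Same-cell function. -/
noncomputable def chiB (n : ℕ) : Bd where
  f := fun x => if ⌊(x + hh n) * n.factorial⌋ = ⌊x * n.factorial⌋ then 1 else 0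
  meas := by
    apply Measurable.ite _ measurable_const measurable_const
    apply measurableSet_eq_fun
    · exact Int.measurable_floor.comp ((measurable_id.add_const _).mul_const _)
    · exact Int.measurable_floor.comp (measurable_id.mul_const _)
  C := 1
  bdd := fun x => by split_ifs <;> simp

/-- The shift of level `n`. -/
noncomputable def Sh (n : ℕ) : L2 →L[ℂ] L2 := wc (chiB n) (hh n)

lemma Sh_norm (n : ℕ) : ‖Sh n‖ ≤ 1 := wc_norm_le _ _ (chiB n).bdd

/-- Rational numbers of level `n`. -/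
def Lev (n : ℕ) (t : ℝ) : Prop := ∃ j : ℤ, t * n.factorial = j

lemma Lev.mono {m n : ℕ} (h : m ≤ n) {t : ℝ} (ht : Lev m t) : Lev n t := by
  obtain ⟨j, hj⟩ := ht
  obtain ⟨r, hr⟩ := Nat.factorial_dvd_factorial h
  refine ⟨j * r, ?_⟩
  rw [hr]
  push_cast
  rw [← mul_assoc, hj]

lemma lt_iff_of_cell {n : ℕ} {x y t : ℝ} (ht : Lev n t)
    (h : ⌊y * n.factorial⌋ = ⌊x * n.factorial⌋) : y < t ↔ x < t := by
  obtain ⟨j, hj⟩ := ht
  have key : ∀ w : ℝ, w < t ↔ ⌊w * n.factorial⌋ < j := by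
    intro w
    rw [Int.floor_lt, ← hj]
    exact (mul_lt_mul_iff_left₀ (fac_pos n)).symm
  rw [key y, key x, h]

lemma cell_mono {m n : ℕ} (hmn : m ≤ n) {x y : ℝ}
    (h : ⌊y * n.factorial⌋ = ⌊x * n.factorial⌋) : ⌊y * m.factorial⌋ = ⌊x * m.factorial⌋ := by
  obtain ⟨r, hr⟩ := Nat.factorial_dvd_factorial hmn
  have hr0 : 0 < r := by
    rcases Nat.eq_zero_or_pos r with h0 | h0
    · rw [h0, mul_zero] at hr
      exact absurd hr (Nat.factorial_ne_zero n)
    · exact h0
  apply floor_eq_of_mul hr0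
  rw [hr] at h
  push_cast at h
  rwa [mul_assoc, mul_assoc]

lemma Sh_comm_Pr {n : ℕ} {t : ℝ} (ht : Lev n t) : Sh n * Pr t = Pr t * Sh n := by
  rw [Sh, Pr, wc_mul, wc_mul]
  apply wc_congr (by ring)
  intro x
  simp only [Bd.mulShift, chiB, ind, add_zero]
  by_cases h : ⌊(x + hh n) * n.factorial⌋ = ⌊x * n.factorial⌋
  · have := lt_iff_of_cell ht h
    simp [h, this]
  · simp [h]

lemma Sh_mem (n : ℕ) : NN.Mem (Sh n) := by
  intro t
  change Sh n * Pr t = Pr t * (Sh n * Pr t)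
  rw [Sh, Pr, wc_mul, wc_mul]
  apply wc_congr (by ring)
  intro x
  simp only [Bd.mulShift, chiB, ind, add_zero]
  by_cases h : x + hh n < t
  · have : x < t := by linarith [hh_pos n]
    simp [this]
  · simp [h]

/-- Digits. -/
noncomputable def dig (n : ℕ) (x : ℝ) : ℤ :=
  ⌊x * (n + 1).factorial⌋ - (n + 1) * ⌊x * n.factorial⌋

lemma dig_nonneg (n : ℕ) (x : ℝ) : 0 ≤ dig n x := by
  unfold dig
  rw [sub_nonneg, Int.le_floor]
  push_cast
  rw [Nat.factorial_succ]
  push_cast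
  have := Int.floor_le (x * n.factorial)
  nlinarith [show (0 : ℝ) ≤ (n : ℝ) + 1 by positivity]

lemma dig_le (n : ℕ) (x : ℝ) : dig n x ≤ n := by
  unfold dig
  have h : ⌊x * (n + 1).factorial⌋ < (n + 1) * (⌊x * n.factorial⌋ + 1) := by
    rw [Int.floor_lt]
    push_cast
    rw [Nat.factorial_succ]
    push_cast
    have := Int.lt_floor_add_one (x * n.factorial)
    nlinarith [show (0 : ℝ) < (n : ℝ) + 1 by positivity]
  linarith

lemma dig_meas (n : ℕ) : Measurable (dig n) := by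
  unfold dig
  apply Measurable.sub
  · exact Int.measurable_floor.comp (measurable_id.mul_const _)
  · exact (Int.measurable_floor.comp (measurable_id.mul_const _)).const_mul _

/-- The weights. -/
noncomputable def zz (n : ℕ) : ℂ := -(2 : ℂ) ^ (n + 2)

lemma zz_norm (n : ℕ) : ‖zz n‖ = 2 ^ (n + 2) := by simp [zz]

lemma zz_one_le (n : ℕ) : 1 ≤ ‖zz n‖ := by
  rw [zz_norm]; exact one_le_pow₀ (by norm_num)

lemma zz_ne (n : ℕ) : zz n ≠ 0 := by
  intro h
  have := zz_one_le n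
  rw [h, norm_zero] at this
  linarith

noncomputable def wB (n : ℕ) : Bd where
  f := fun x => zz n ^ (dig n x)
  meas := (measurable_of_countable (fun d : ℤ => zz n ^ d)).comp (dig_meas n)
  C := ‖zz n‖ ^ (n : ℤ)
  bdd := fun x => by
    rw [norm_zpow]
    exact zpow_le_zpow_right₀ (zz_one_le n) (dig_le n x)

noncomputable def wB' (n : ℕ) : Bd where
  f := fun x => zz n ^ (-dig n x)
  meas := (measurable_of_countable (fun d : ℤ => zz n ^ (-d))).comp (dig_meas n)
  C := 1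
  bdd := fun x => by
    rw [norm_zpow]
    have := zpow_le_zpow_right₀ (zz_one_le n) (show -dig n x ≤ 0 by linarith [dig_nonneg n x])
    simpa using this

noncomputable def Wo (n : ℕ) : L2 →L[ℂ] L2 := wc (wB n) 0
noncomputable def Wi (n : ℕ) : L2 →L[ℂ] L2 := wc (wB' n) 0

/-- The constant function one. -/
noncomputable def oneB : Bd where
  f := fun _ => 1
  meas := measurable_const
  C := 1
  bdd := fun x => by simp

lemma wc_oneB : wc oneB 0 = 1 := by
  ext1 g
  apply Lp.ext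
  filter_upwards [wc_ae oneB 0 g] with x h
  rw [h]
  simp [oneB]

lemma Wi_Wo (n : ℕ) : Wi n * Wo n = 1 := by
  rw [Wi, Wo, wc_mul, ← wc_oneB]
  apply wc_congr (by ring)
  intro x
  simp only [Bd.mulShift, wB, wB', oneB, add_zero]
  rw [← zpow_add₀ (zz_ne n), neg_add_cancel, zpow_zero]

lemma Wo_Wi (n : ℕ) : Wo n * Wi n = 1 := by
  rw [Wi, Wo, wc_mul, ← wc_oneB]
  apply wc_congr (by ring)
  intro x
  simp only [Bd.mulShift, wB, wB', oneB, add_zero]
  rw [← zpow_add₀ (zz_ne n), add_neg_cancel, zpow_zero]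

lemma Wo_dg (n : ℕ) : NN.Dg (Wo n) := by
  intro t
  change Wo n * Pr t = Pr t * Wo n
  rw [Wo, Pr, wc_mul, wc_mul]
  apply wc_congr (by ring)
  intro x
  simp only [Bd.mulShift, wB, ind, add_zero]
  exact mul_comm _ _

lemma Wi_dg (n : ℕ) : NN.Dg (Wi n) := by
  intro t
  change Wi n * Pr t = Pr t * Wi n
  rw [Wi, Pr, wc_mul, wc_mul]
  apply wc_congr (by ring)
  intro x
  simp only [Bd.mulShift, wB', ind, add_zero]
  exact mul_comm _ _

lemma Wi_Sh_Wo (n : ℕ) : Wi n * (Sh n * Wo n) = zz n • Sh n := by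
  have h1 : zz n • Sh n = wc ⟨fun x => zz n * (chiB n).f x, (chiB n).meas.const_mul _,
      ‖zz n‖ * 1, fun x => by
        rw [norm_mul]
        exact mul_le_mul_of_nonneg_left ((chiB n).bdd x) (norm_nonneg _)⟩ (hh n) := by
    ext1 g
    apply Lp.ext
    filter_upwards [wc_ae (chiB n) (hh n) g, wc_ae ⟨fun x => zz n * (chiB n).f x,
      (chiB n).meas.const_mul _, ‖zz n‖ * 1, fun x => by
        rw [norm_mul]
        exact mul_le_mul_of_nonneg_left ((chiB n).bdd x) (norm_nonneg _)⟩ (hh n) g,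
      Lp.coeFn_smul (zz n) (Sh n g)] with x h1 h2 h3
    rw [smul_apply, h3, h2, Pi.smul_apply, Sh, h1, smul_eq_mul, mul_assoc]
  rw [h1, Wi, Sh, Wo, wc_mul, wc_mul]
  apply wc_congr (by ring)
  intro x
  simp only [Bd.mulShift, wB, wB', add_zero]
  by_cases h : ⌊(x + hh n) * n.factorial⌋ = ⌊x * n.factorial⌋
  · have hd : dig n (x + hh n) = dig n x + 1 := by
      unfold dig
      rw [h, add_mul, hh_mul, Int.floor_add_one]
      ring
    rw [hd, zpow_add₀ (zz_ne n), zpow_one]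
    have : zz n ^ (-dig n x) * zz n ^ dig n x = 1 := by
      rw [← zpow_add₀ (zz_ne n), neg_add_cancel, zpow_zero]
    linear_combination ((chiB n).f x * zz n) * this
  · simp [chiB, h]

lemma Sh_comm_Wo {m n : ℕ} (hmn : m < n) : Sh n * Wo m = Wo m * Sh n := by
  rw [Sh, Wo, wc_mul, wc_mul]
  apply wc_congr (by ring)
  intro x
  simp only [Bd.mulShift, wB, add_zero]
  by_cases h : ⌊(x + hh n) * n.factorial⌋ = ⌊x * n.factorial⌋
  · have hd : dig m (x + hh n) = dig m x := by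
      unfold dig
      rw [cell_mono hmn.le h, cell_mono hmn h]
    rw [hd, mul_comm]
  · simp [chiB, h]

end Pool.Agent.Lib.MP_0de7f2_an
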