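import Pool.Agent.Lib.MP_0de7f2_an.Total
import Pool.Agent.Lib.MP_0de7f2_an.Abstract

set_option autoImplicit false

open MeasureTheory Filter Topology ContinuousLinearMap Set

namespace Pool.Agent.Lib.MP_0de7f2_an

/-- Indicator of a half-line. -/
noncomputable def ind (t : ℝ) : Bd where
  f := fun x => if x < t then 1 else 0
  meas := Measurable.ite measurableSet_Iio measurable_const measurable_const
  C := 1
  bdd := fun x => by split_ifs <;> simp

/-- The projections of the nest. -/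
noncomputable def Pr (t : ℝ) : L2 →L[ℂ] L2 := wc (ind t) 0

lemma Pr_ae (t : ℝ) (f : L2) : Pr t f =ᵐ[volume] fun x => (if x < t then 1 else 0) * f x := by
  filter_upwards [wc_ae (ind t) 0 f] with x h
  rw [Pr, h, add_zero]
  rfl

lemma Pr_mul_of_le {s t : ℝ} (h : s ≤ t) : Pr s * Pr t = Pr s := by
  rw [Pr, Pr, wc_mul]
  apply wc_congr (by simp)
  intro x
  simp only [Bd.mulShift, ind, add_zero]
  by_cases h1 : x < s
  · have : x < t := lt_of_lt_of_le h1 h
    simp [h1, this]
  · simp [h1]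

lemma Pr_mul_of_le' {s t : ℝ} (h : s ≤ t) : Pr t * Pr s = Pr s := by
  rw [Pr, Pr, wc_mul]
  apply wc_congr (by simp)
  intro x
  simp only [Bd.mulShift, ind, add_zero]
  by_cases h1 : x < s
  · have : x < t := lt_of_lt_of_le h1 h
    simp [h1, this]
  · simp [h1]

lemma Pr_sa (t : ℝ) : star (Pr t) = Pr t := by
  rw [star_eq_adjoint]
  symm
  rw [eq_adjoint_iff]
  intro f g
  rw [L2.inner_def, L2.inner_def]
  apply integral_congr_ae
  filter_upwards [Pr_ae t f, Pr_ae t g] with x h1 h2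
  rw [h1, h2]
  split_ifs <;> simp

lemma Cj_chi (s t : ℝ) : Cj (chi s t) = chi s t := by
  apply Lp.ext
  filter_upwards [Cj_ae (chi s t), chi_ae s t] with x h1 h2
  rw [h1, h2]
  by_cases h : x ∈ Ico s t <;> simp [h]

/-- Projection onto an interval. -/
noncomputable def Dl (s t : ℝ) : L2 →L[ℂ] L2 := (1 - Pr s) * Pr t

lemma Dl_ae (s t : ℝ) (f : L2) :
    Dl s t f =ᵐ[volume] fun x => (Ico s t).indicator (fun _ => (1 : ℂ)) x * f x := by
  filter_upwards [Lp.coeFn_sub (Pr t f) (Pr s (Pr t f)), Pr_ae t f, Pr_ae s (Pr t f)]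
    with x h1 h2 h3
  have : Dl s t f = Pr t f - Pr s (Pr t f) := by
    rw [Dl, mul_apply_eq_comp, sub_apply, one_apply_eq_self]
  rw [this, h1, Pi.sub_apply, h3, h2]
  by_cases h : x < s
  · have h' : x ∉ Ico s t := fun h' => absurd h'.1 (not_le.mpr h)
    simp [h, h']
  · by_cases h4 : x < t
    · have h' : x ∈ Ico s t := ⟨not_lt.mp h, h4⟩
      simp [h, h4, h']
    · have h' : x ∉ Ico s t := fun h' => absurd h'.2 h4
      simp [h4, h']

lemma Dl_chi (s t : ℝ) : Dl s t (chi s t) = chi s t := by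
  apply Lp.ext
  filter_upwards [Dl_ae s t (chi s t), chi_ae s t] with x h1 h2
  rw [h1, h2]
  by_cases h : x ∈ Ico s t <;> simp [h]

lemma Dl_chi_comm (s t s' t' : ℝ) : Dl s t (chi s' t') = Dl s' t' (chi s t) := by
  apply Lp.ext
  filter_upwards [Dl_ae s t (chi s' t'), Dl_ae s' t' (chi s t), chi_ae s t, chi_ae s' t']
    with x h1 h2 h3 h4
  rw [h1, h2, h3, h4, mul_comm]

lemma Dl_sa (s t : ℝ) (f g : L2) : inner ℂ (Dl s t f) g = inner ℂ f (Dl s t g) := by
  rw [L2.inner_def, L2.inner_def]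
  apply integral_congr_ae
  filter_upwards [Dl_ae s t f, Dl_ae s t g] with x h1 h2
  rw [h1, h2]
  by_cases h : x ∈ Ico s t <;> simp [h]

/-- Symmetry of the bilinear form. -/
lemma symm_chi (x : L2 →L[ℂ] L2) (hx : ∀ t : ℚ, x * Pr t = Pr t * x) (s t s' t' : ℚ) :
    inner ℂ (chi s t) (x (chi s' t')) = inner ℂ (chi s' t') (x (chi s t)) := by
  have hD : ∀ s t : ℚ, ∀ f, x (Dl s t f) = Dl s t (x f) := by
    intro s t f
    have : x * Dl s t = Dl s t * x := by
      rw [Dl, mul_assoc, ← hx t, ← mul_assoc, ← mul_assoc]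
      congr 1
      rw [mul_sub, sub_mul, mul_one, one_mul, hx s]
    have := congrArg (fun T => T f) this
    simpa using this
  have key : ∀ s t s' t' : ℚ, inner ℂ (chi s t) (x (chi s' t')) =
      inner ℂ (Dl s t (chi s' t')) (x (Dl s t (chi s' t'))) := by
    intro s t s' t'
    calc inner ℂ (chi s t) (x (chi s' t')) = inner ℂ (Dl s t (chi s t)) (x (chi s' t')) := by
          rw [Dl_chi]
      _ = inner ℂ (chi s t) (x (Dl s t (chi s' t'))) := by rw [Dl_sa, hD]
      _ = inner ℂ (chi s t) (x (Dl s' t' (Dl s t (chi s' t')))) := by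
          congr 2
          rw [Dl_chi_comm]
          apply Lp.ext
          filter_upwards [Dl_ae s' t' (Dl s' t' (chi s t)), Dl_ae s' t' (chi s t)] with y h1 h2
          rw [h1, h2]
          by_cases h : y ∈ Ico (s' : ℝ) t' <;> simp [h]
      _ = inner ℂ (Dl s' t' (chi s t)) (x (Dl s t (chi s' t'))) := by rw [hD, ← Dl_sa]
      _ = inner ℂ (Dl s t (chi s' t')) (x (Dl s t (chi s' t'))) := by rw [Dl_chi_comm]
  rw [key s t s' t', key s' t' s t, Dl_chi_comm]

lemma symm_all (x : L2 →L[ℂ] L2) (hx : ∀ t : ℚ, x * Pr t = Pr t * x) (f g : L2) :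
    inner ℂ (Cj f) (x g) = inner ℂ (Cj g) (x f) := by
  -- generic closed submodules
  have step : ∀ g : L2, (∀ s t : ℚ, inner ℂ (Cj (chi s t)) (x g) = inner ℂ (Cj g) (x (chi s t))) →
      ∀ f, inner ℂ (Cj f) (x g) = inner ℂ (Cj g) (x f) := by
    intro g hg f
    let V : Submodule ℂ L2 :=
      { carrier := {f | inner ℂ (Cj f) (x g) = inner ℂ (Cj g) (x f)}
        add_mem' := by
          intro a b ha hb
          change inner ℂ (Cj (a + b)) (x g) = inner ℂ (Cj g) (x (a + b))
          rw [map_add, map_add, inner_add_left, inner_add_right]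
          exact congrArg₂ (· + ·) ha hb
        zero_mem' := by
          change inner ℂ (Cj 0) (x g) = inner ℂ (Cj g) (x 0)
          rw [map_zero, map_zero, inner_zero_left, inner_zero_right]
        smul_mem' := by
          intro c a ha
          change inner ℂ (Cj (c • a)) (x g) = inner ℂ (Cj g) (x (c • a))
          rw [Cj_smul, map_smul, inner_smul_left, inner_smul_right, starRingEnd_self_apply]
          exact congrArg (fun z => c * z) ha }
    have hV : IsClosed (V : Set L2) := by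
      have : (V : Set L2) = {f | inner ℂ (Cj f) (x g) = inner ℂ (Cj g) (x f)} := rfl
      rw [this]
      apply isClosed_eq
      · exact (Cj.continuous.inner continuous_const)
      · exact (continuous_const.inner x.continuous)
    exact mem_of_total V hV hg f
  apply step g
  intro s t
  symm
  revert g
  apply step (chi s t)
  intro s' t'
  rw [Cj_chi, Cj_chi]
  exact symm_chi x hx s' t' s t

lemma comm_all (x y : L2 →L[ℂ] L2) (hx : ∀ t : ℚ, x * Pr t = Pr t * x)
    (hy : ∀ t : ℚ, y * Pr t = Pr t * y) : x * y = y * x := by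
  have hxy : ∀ t : ℚ, (x * y) * Pr t = Pr t * (x * y) := by
    intro t
    rw [mul_assoc, hy, ← mul_assoc, hx, mul_assoc]
  ext1 f
  rw [← sub_eq_zero]
  apply eq_zero_of_orth
  intro s t
  rw [inner_sub_right, sub_eq_zero]
  have h1 := symm_all (x * y) hxy (chi s t) f
  rw [Cj_chi] at h1
  have h2 := symm_all 1 (fun t => by rw [one_mul, mul_one]) (y (chi s t)) (x f)
  simp only [one_apply_eq_self] at h2
  rw [h1, mul_apply_eq_comp, mul_apply_eq_comp, symm_all x hx f (y (chi s t)), h2,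
    symm_all y hy (x f) (chi s t), Cj_chi]

lemma diffuse_all (ζ : L2) (h : ∀ t : ℚ, Pr t ζ = 0 ∨ Pr t ζ = ζ) : ζ = 0 := by
  have hG : ∀ᵐ x : ℝ, ∀ t : ℚ, (Pr t ζ = 0 → x < t → ζ x = 0) ∧
      (Pr t ζ = ζ → (t : ℝ) ≤ x → ζ x = 0) := by
    rw [ae_all_iff]
    intro t
    filter_upwards [Pr_ae t ζ, Lp.coeFn_zero ℂ 2 (volume : Measure ℝ)] with x h1 h0
    constructor
    · intro h2 h3
      rw [h2, h0] at h1
      simpa [h3] using h1.symm
    · intro h2 h3
      rw [h2] at h1
      rw [h1]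
      simp [not_lt.mpr h3]
  set Z : Set ℝ := {x | (∀ t : ℚ, (Pr t ζ = 0 → x < t → ζ x = 0) ∧
      (Pr t ζ = ζ → (t : ℝ) ≤ x → ζ x = 0)) ∧ ζ x ≠ 0} with hZ
  have hsub : Z.Subsingleton := by
    have aux : ∀ x y, x ∈ Z → y ∈ Z → ¬ x < y := by
      intro x y hx hy hxy
      obtain ⟨t, ht1, ht2⟩ := exists_rat_btwn hxy
      rcases h t with h1 | h1
      · exact hx.2 ((hx.1 t).1 h1 ht1)
      · exact hy.2 ((hy.1 t).2 h1 ht2.le)
    intro x hx y hy
    rcases lt_trichotomy x y with h1 | h1 | h1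
    · exact absurd h1 (aux x y hx hy)
    · exact h1
    · exact absurd h1 (aux y x hy hx)
  have hZ0 : volume Z = 0 := hsub.measure_zero volume
  apply Lp.ext
  filter_upwards [hG, measure_eq_zero_iff_ae_notMem.mp hZ0,
    Lp.coeFn_zero ℂ 2 (volume : Measure ℝ)] with x h1 h2 h3
  rw [h3]
  by_contra h4
  exact h2 ⟨h1, h4⟩

/-- The concrete nest. -/
noncomputable def NN : Nest ℚ L2 where
  P := fun t => Pr t
  sa := fun t => Pr_sa t
  tot := fun s t => by
    rcases le_total (s : ℝ) t with h | h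
    · left; exact ⟨Pr_mul_of_le h, Pr_mul_of_le' h⟩
    · right; exact ⟨Pr_mul_of_le' h, Pr_mul_of_le h⟩
  comm := comm_all
  diffuse := diffuse_all

end Pool.Agent.Lib.MP_0de7f2_an
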