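import Pool.Agent.Lib.MP_0de7f2_an.Entries

set_option autoImplicit false

open Filter Topology ContinuousLinearMap

namespace Pool.Agent.Lib.MP_0de7f2_an

variable {K H : Type} [NormedAddCommGroup K] [InnerProductSpace ℂ K] [CompleteSpace K]
  [NormedAddCommGroup H] [InnerProductSpace ℂ H] [CompleteSpace H]

section Main

variable {ι : Type} {N : Nest ι K} (S : Asym N) (β : Blocks K H)

/-- The space of the first summand. -/
def K1 (β : Blocks K H) : Submodule ℂ H where
  carrier := {y | β.i1 (β.p1 y) = y}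
  add_mem' := by
    intro a b ha hb
    simp only [Set.mem_ofPred_eq] at *
    rw [map_add, map_add, ha, hb]
  zero_mem' := by simp
  smul_mem' := by
    intro c a ha
    simp only [Set.mem_ofPred_eq] at *
    rw [map_smul, map_smul, ha]

lemma mem_K1 {y : H} : y ∈ K1 β ↔ β.i1 (β.p1 y) = y := Iff.rfl

lemma K1_complete : CompleteSpace (K1 β) := by
  have hc : IsClosed ((K1 β : Submodule ℂ H) : Set H) := by
    have : ((K1 β : Submodule ℂ H) : Set H) = {y | β.i1 (β.p1 y) = y} := rfl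
    rw [this]
    exact isClosed_eq (by fun_prop) continuous_id
  exact hc.completeSpace_coe

variable [CompleteSpace (K1 β)]

lemma proj_K1 (y : H) : ((K1 β).orthogonalProjectionOnto y : H) = β.i1 (β.p1 y) := by
  change (K1 β).starProjection y = _
  apply Submodule.eq_starProjection_of_mem_of_inner_eq_zero
  · rw [mem_K1, β.h11]
  · intro w hw
    rw [mem_K1] at hw
    have h1 : y - β.i1 (β.p1 y) = β.i2 (β.p2 y) := by
      rw [sub_eq_iff_eq_add', β.hsum]
    have h2 : inner ℂ (β.i2 (β.p2 y)) (β.i1 (β.p1 w)) = 0 := by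
      rw [← adjoint_inner_right, β.a2, β.h21, inner_zero_right]
    rw [h1, ← hw, h2]

/-- inclusion into the range space -/
def al : K →L[ℂ] K1 β := β.i1.codRestrict (K1 β) (fun x => by rw [mem_K1, β.h11])

/-- its inverse -/
def ga : K1 β →L[ℂ] K := β.p1 ∘L (K1 β).subtypeL

lemma al_coe (x : K) : ((al β x : K1 β) : H) = β.i1 x := rfl

lemma ga_apply (x : K1 β) : ga β x = β.p1 (x : H) := rfl

lemma ga_al (x : K) : ga β (al β x) = x := by rw [ga_apply, al_coe, β.h11]

lemma al_ga (x : K1 β) : al β (ga β x) = x := by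
  apply Subtype.ext
  rw [al_coe, ga_apply]
  exact x.2

lemma adj_ga : adjoint (al β) = ga β := by
  symm
  rw [eq_adjoint_iff]
  intro x y
  rw [ga_apply, Submodule.coe_inner, al_coe, ← adjoint_inner_left, β.a1]

lemma adj_al : adjoint (ga β) = al β := by
  rw [← adj_ga, adjoint_adjoint]

/-- transport from the range space -/
def tr (y : K1 β →L[ℂ] K1 β) : K →L[ℂ] K := (ga β ∘L y) ∘L al β

/-- transport to the range space -/
def rt (y : K →L[ℂ] K) : K1 β →L[ℂ] K1 β := (al β ∘L y) ∘L ga β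

lemma tr_rt (y : K →L[ℂ] K) : tr β (rt β y) = y := by
  ext ξ
  simp only [tr, rt, coe_comp, Function.comp_apply, ga_al]

lemma tr_inj {y z : K1 β →L[ℂ] K1 β} (h : tr β y = tr β z) : y = z := by
  ext1 ξ
  have := congrArg (fun T => al β (T (ga β ξ))) h
  simpa only [tr, coe_comp, Function.comp_apply, al_ga] using this

lemma tr_mul (y z : K1 β →L[ℂ] K1 β) : tr β (y * z) = tr β y * tr β z := by
  ext ξ
  simp only [tr, coe_comp, Function.comp_apply, mul_apply_eq_comp, al_ga]

lemma tr_add (y z : K1 β →L[ℂ] K1 β) : tr β (y + z) = tr β y + tr β z := by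
  ext ξ
  simp only [tr, coe_comp, Function.comp_apply, add_apply, map_add]

lemma tr_star (y : K1 β →L[ℂ] K1 β) : tr β (star y) = star (tr β y) := by
  simp only [tr, star_eq_adjoint, adjoint_comp, adj_ga, adj_al, comp_assoc]

lemma tr_smul_one (c : ℂ) : tr β (c • 1) = c • 1 := by
  ext ξ
  simp only [tr, coe_comp, Function.comp_apply, smul_apply, one_apply_eq_self, map_smul, ga_al]

/-- The nest algebra on the range space. -/
def NA (N : Nest ι K) : Subalgebra ℂ (K1 β →L[ℂ] K1 β) where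
  carrier := {x | N.Mem (tr β x)}
  mul_mem' := fun {x y} h1 h2 => by
    change N.Mem (tr β (x * y))
    rw [tr_mul]; exact N.mem_mul h1 h2
  add_mem' := fun {x y} h1 h2 => by
    change N.Mem (tr β (x + y))
    rw [tr_add]; exact N.mem_add h1 h2
  algebraMap_mem' := fun c => by
    rw [Algebra.algebraMap_eq_smul_one]
    change N.Mem (tr β (c • 1))
    rw [tr_smul_one]
    exact N.mem_smul c (N.dg_one.mem)

lemma mem_NA {x : K1 β →L[ℂ] K1 β} : x ∈ NA β N ↔ N.Mem (tr β x) := Iff.rfl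

lemma NA_inter : {x | x ∈ NA β N ∧ star x ∈ NA β N} = {x | N.Dg (tr β x)} := by
  ext x
  constructor
  · rintro ⟨h1, h2⟩
    rw [mem_NA] at h1 h2
    rw [tr_star] at h2
    exact N.dg_of_mem_star h1 h2
  · intro h
    have h' : N.Dg (tr β x) := h
    refine ⟨h'.mem, ?_⟩
    rw [mem_NA, tr_star]
    exact h'.star.mem

lemma NA_tri : Set.centralizer {x | x ∈ NA β N ∧ star x ∈ NA β N} =
    {x | x ∈ NA β N ∧ star x ∈ NA β N} := by
  rw [NA_inter]
  ext x
  rw [Set.mem_centralizer_iff]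
  constructor
  · intro h
    change N.Dg (tr β x)
    intro i
    have h1 := h (rt β (N.P i)) (by
      change N.Dg (tr β (rt β (N.P i)))
      rw [tr_rt]; exact N.dg_P i)
    have h2 := congrArg (tr β) h1
    rw [tr_mul, tr_mul, tr_rt] at h2
    exact h2.symm
  · intro h m hm
    have h' : N.Dg (tr β x) := h
    have hm' : N.Dg (tr β m) := hm
    apply tr_inj β
    rw [tr_mul, tr_mul, N.comm _ _ hm' h']

omit [CompleteSpace ↥(K1 β)] in
include S β in
theorem contra [Nontrivial K]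
    (hyp : ∀ (T : Subalgebra ℂ (H →L[ℂ] H)),
    (Set.centralizer {x | x ∈ T ∧ star x ∈ T} = {x | x ∈ T ∧ star x ∈ T} ∧
      ∀ B : Subalgebra ℂ (H →L[ℂ] H), T ≤ B →
        Set.centralizer {x | x ∈ B ∧ star x ∈ B} = {x | x ∈ B ∧ star x ∈ B} → B = T) →
    ∀ (K : Submodule ℂ H) [CompleteSpace K],
      K.subtypeL ∘L K.orthogonalProjectionOnto ∈ T →
      ∃ S : Subalgebra ℂ (K →L[ℂ] K),
        (S : Set (K →L[ℂ] K)) =
          (fun A : H →L[ℂ] H => K.orthogonalProjectionOnto ∘L A ∘L K.subtypeL) ''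
            (T : Set (H →L[ℂ] H)) ∧
        Set.centralizer {x | x ∈ S ∧ star x ∈ S} = {x | x ∈ S ∧ star x ∈ S} ∧
        ∀ B : Subalgebra ℂ (K →L[ℂ] K), S ≤ B →
          Set.centralizer {x | x ∈ B ∧ star x ∈ B} = {x | x ∈ B ∧ star x ∈ B} → B = S) :
    False := by
  have hcs : CompleteSpace (K1 β) := K1_complete β
  obtain ⟨T, hT0, hTd, hTmax⟩ := exists_max S β
  have htri : Tri T := tri_of S β hT0 hTd
  have hTT := hyp T ⟨htri, fun B hTB hB => hTmax B hTB (of_tri S β (hT0.trans hTB) hB)⟩ (K1 β)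
  have hE : β.ofE 1 0 0 0 ∈ T := by
    apply hT0
    apply DD_subset_T0
    refine ⟨?_, ?_, ?_, ?_⟩ <;> simp [N.dg_one, N.dg_zero]
  have hproj : (K1 β).subtypeL ∘L (K1 β).orthogonalProjectionOnto = β.ofE 1 0 0 0 := by
    ext y
    rw [coe_comp, Function.comp_apply, Submodule.subtypeL_apply, proj_K1]
    simp [Blocks.ofE]
  obtain ⟨M, hM1, hM2, hM3⟩ := hTT (by rw [hproj]; exact hE)
  have htrc : ∀ A : H →L[ℂ] H,
      tr β ((K1 β).orthogonalProjectionOnto ∘L A ∘L (K1 β).subtypeL) = β.e11 A := by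
    intro A
    ext ξ
    simp only [tr, coe_comp, Function.comp_apply, ga_apply, Submodule.subtypeL_apply, al_coe,
      proj_K1, Blocks.e11, β.h11]
  have hle : M ≤ NA β N := by
    intro x hx
    have hx' : x ∈ (M : Set _) := hx
    rw [hM1] at hx'
    obtain ⟨A, hA, rfl⟩ := hx'
    rw [mem_NA, htrc]
    exact e11_mem S β T hT0 hTd A hA
  have heq := hM3 (NA β N) hle (NA_tri β)
  have hb : rt β S.b ∈ NA β N := by
    rw [mem_NA, tr_rt]; exact S.b_mem
  rw [heq] at hb
  have hb' : rt β S.b ∈ (M : Set _) := hb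
  rw [hM1] at hb'
  obtain ⟨A, hA, hAb⟩ := hb'
  have hAb' : β.e11 A = S.b := by
    rw [← htrc]
    have := congrArg (tr β) hAb
    rw [tr_rt] at this
    exact this
  have ha : β.ofE 0 S.a 0 0 ∈ T := by
    apply hT0
    rw [mem_T0]
    have h0 : S.II 0 := S.conv_dg N.dg_zero
    refine ⟨?_, ?_, ?_, ?_⟩ <;> simp only [β.e11_ofE, β.e12_ofE, β.e21_ofE, β.e22_ofE]
    · exact h0.bb
    · exact S.conv_a
    · exact h0.bb
    · exact h0.bb
  have hprod : (β.ofE 1 0 0 0 * A) * β.ofE 0 S.a 0 0 = β.ofE 0 1 0 0 := by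
    have hba := S.ba
    apply β.ext_entries
    · rw [β.e11_mul]; simp
    · rw [β.e12_mul, β.e11_mul, β.e12_mul]
      simp [hAb', hba]
    · rw [β.e21_mul, β.e21_mul]; simp
    · rw [β.e22_mul, β.e21_mul, β.e22_mul]; simp
  have hm1 : β.ofE 0 1 0 0 ∈ T := by
    rw [← hprod]
    exact T.mul_mem (T.mul_mem hE hA) ha
  have hst : star (β.ofE 0 1 0 0) = β.ofE 0 0 1 0 := by
    apply β.ext_entries
    · rw [β.e11_star]; simp
    · rw [β.e12_star]; simp
    · rw [β.e21_star]; simp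
    · rw [β.e22_star]; simp
  have hm2 : star (β.ofE 0 1 0 0) ∈ T := by
    rw [hst]
    apply hT0
    rw [mem_T0]
    have h0 : S.II 0 := S.conv_dg N.dg_zero
    refine ⟨?_, ?_, ?_, ?_⟩ <;> simp only [β.e11_ofE, β.e12_ofE, β.e21_ofE, β.e22_ofE]
    · exact h0.bb
    · exact h0
    · exact S.bb_dg N.dg_one
    · exact h0.bb
  have := (hTd _ hm1 hm2).2.1
  rw [β.e12_ofE] at this
  exact one_ne_zero this

end Main

end Pool.Agent.Lib.MP_0de7f2_an
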