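import Pool.Agent.Lib.MP_0de7f2_an.Cells

set_option autoImplicit false

open MeasureTheory Filter Topology ContinuousLinearMap Set

namespace Pool.Agent.Lib.MP_0de7f2_an

lemma wind_norm (m : ℕ) : ‖Pr m - Pr (-(m : ℝ))‖ ≤ 1 := by
  apply opNorm_le_bound _ zero_le_one
  intro g
  apply Lp.norm_le_mul_norm_of_ae_le_mul
  filter_upwards [Lp.coeFn_sub (Pr m g) (Pr (-(m : ℝ)) g), Pr_ae m g, Pr_ae (-(m : ℝ)) g]
    with x h1 h2 h3
  rw [sub_apply, h1, Pi.sub_apply, h2, h3, ← sub_mul, norm_mul]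
  apply mul_le_mul_of_nonneg_right _ (norm_nonneg _)
  split_ifs <;> simp

lemma wind_tendsto (ξ : L2) :
    Tendsto (fun m : ℕ => (Pr m - Pr (-(m : ℝ))) ξ) atTop (𝓝 ξ) := by
  have h := tendsto_of_total (fun m : ℕ => Pr m - Pr (-(m : ℝ)) - 1) 2 (by
    intro m
    calc ‖Pr m - Pr (-(m : ℝ)) - 1‖ ≤ ‖Pr m - Pr (-(m : ℝ))‖ + ‖(1 : L2 →L[ℂ] L2)‖ :=
          norm_sub_le _ _
      _ ≤ 1 + 1 := add_le_add (wind_norm m) (by
          have := norm_id_le (𝕜 := ℂ) (E := L2)
          exact this)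
      _ = 2 := by norm_num) (by
    intro s t
    obtain ⟨M, hM⟩ := exists_nat_gt (|(s : ℝ)| + |(t : ℝ)|)
    apply tendsto_const_nhds.congr'
    filter_upwards [eventually_ge_atTop M] with m hm
    symm
    apply Lp.ext
    filter_upwards [Lp.coeFn_sub (Pr m (chi s t)) (Pr (-(m : ℝ)) (chi s t)),
      Pr_ae m (chi s t), Pr_ae (-(m : ℝ)) (chi s t),
      Lp.coeFn_sub ((Pr m - Pr (-(m : ℝ))) (chi s t)) (chi s t), chi_ae s t,
      Lp.coeFn_zero ℂ 2 (volume : Measure ℝ)] with x h1 h2 h3 h4 h5 h6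
    rw [sub_apply, one_apply_eq_self, h4, Pi.sub_apply, sub_apply, h1, Pi.sub_apply, h2, h3, h5, h6]
    have hm' : (M : ℝ) ≤ m := by exact_mod_cast hm
    have h7 := abs_nonneg (s : ℝ)
    have h8 := abs_nonneg (t : ℝ)
    have h9 := le_abs_self (t : ℝ)
    have h10 := neg_abs_le (s : ℝ)
    by_cases hx : x ∈ Ico (s : ℝ) t
    · have e1 : x < m := by linarith [hx.2]
      have e2 : ¬ x < -(m : ℝ) := by linarith [hx.1]
      simp [hx, e1, e2]
    · simp [hx]) ξ
  have h2 := h.add_const ξ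
  simp only [zero_add] at h2
  refine h2.congr fun m => ?_
  rw [sub_apply _ 1, one_apply_eq_self, sub_add_cancel]

lemma Sh_chi {n : ℕ} {s t : ℝ} (hs : Lev n s) (ht : Lev n t) :
    ‖(Sh n - 1) (chi s t)‖ ≤ (|t - s| / (n + 1)) ^ (1 / 2 : ℝ) := by
  obtain ⟨a, ha⟩ := hs
  obtain ⟨b, hb⟩ := ht
  set B : Set ℝ := Ico s t ∩ {x | ⌊(x + hh n) * n.factorial⌋ ≠ ⌊x * n.factorial⌋} with hB
  have hBm : MeasurableSet B := by
    apply measurableSet_Ico.inter
    have : MeasurableSet {x : ℝ | ⌊(x + hh n) * n.factorial⌋ = ⌊x * n.factorial⌋} := by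
      apply measurableSet_eq_fun
      · exact Int.measurable_floor.comp ((measurable_id.add_const _).mul_const _)
      · exact Int.measurable_floor.comp (measurable_id.mul_const _)
    exact this.compl
  have hBfin : volume B ≠ ⊤ := by
    apply ne_top_of_le_ne_top _ (measure_mono (inter_subset_left))
    simp
  have hfp := fac_pos n
  -- the measure of B
  have hmeas : volume B ≤ ENNReal.ofReal (|t - s| / (n + 1)) := by
    have hsub : B ⊆ ⋃ j ∈ Finset.Ico a b,
        Ico (((j : ℝ) + 1) / n.factorial - hh n) (((j : ℝ) + 1) / n.factorial) := by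
      rintro x ⟨⟨hx1, hx2⟩, hx3⟩
      simp only [mem_iUnion, Finset.mem_Ico, exists_prop]
      refine ⟨⌊x * n.factorial⌋, ⟨?_, ?_⟩, ?_, ?_⟩
      · rw [Int.le_floor, ← ha]
        exact mul_le_mul_of_nonneg_right hx1 hfp.le
      · rw [Int.floor_lt, ← hb]
        exact mul_lt_mul_of_pos_right hx2 hfp
      · have h1 : ⌊x * n.factorial⌋ ≤ ⌊(x + hh n) * n.factorial⌋ := by
          apply Int.floor_le_floor
          apply mul_le_mul_of_nonneg_right _ hfp.le
          linarith [hh_pos n]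
        have h2 : ⌊x * n.factorial⌋ + 1 ≤ ⌊(x + hh n) * n.factorial⌋ := by
          have : ⌊x * n.factorial⌋ ≠ ⌊(x + hh n) * n.factorial⌋ := fun h => hx3 h.symm
          omega
        rw [Int.le_floor] at h2
        push_cast at h2
        rw [sub_le_iff_le_add, div_le_iff₀ hfp]
        exact h2
      · rw [lt_div_iff₀ hfp]
        exact Int.lt_floor_add_one _
    calc volume B ≤ volume (⋃ j ∈ Finset.Ico a b,
        Ico (((j : ℝ) + 1) / n.factorial - hh n) (((j : ℝ) + 1) / n.factorial)) :=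
          measure_mono hsub
      _ ≤ ∑ j ∈ Finset.Ico a b,
          volume (Ico (((j : ℝ) + 1) / n.factorial - hh n) (((j : ℝ) + 1) / n.factorial)) :=
          measure_biUnion_finset_le _ _
      _ = ∑ j ∈ Finset.Ico a b, ENNReal.ofReal (hh n) := by
          apply Finset.sum_congr rfl
          intro j _
          rw [Real.volume_Ico]
          congr 1
          ring
      _ = ENNReal.ofReal ((b - a).toNat * hh n) := by
          rw [Finset.sum_const, Int.card_Ico, nsmul_eq_mul,
            ENNReal.ofReal_mul (by positivity), ENNReal.ofReal_natCast]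
      _ ≤ ENNReal.ofReal (|t - s| / (n + 1)) := by
          apply ENNReal.ofReal_le_ofReal
          have h1 : (((b - a).toNat : ℤ) : ℝ) ≤ |t - s| * n.factorial := by
            rw [Int.toNat_eq_max]
            push_cast
            apply max_le _ (by positivity)
            rw [← ha, ← hb, ← sub_mul]
            exact mul_le_mul_of_nonneg_right (le_abs_self _) hfp.le
          have h2 : (((b - a).toNat : ℕ) : ℝ) ≤ |t - s| * n.factorial := by exact_mod_cast h1
          calc ((b - a).toNat : ℝ) * hh n ≤ (|t - s| * n.factorial) * hh n :=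
                mul_le_mul_of_nonneg_right h2 (hh_pos n).le
            _ = |t - s| / (n + 1) := by
                unfold hh
                rw [Nat.factorial_succ]
                push_cast
                field_simp
  have heq : (Sh n - 1) (chi s t) = - indicatorConstLp 2 hBm hBfin (1 : ℂ) := by
    apply Lp.ext
    have hci : indicatorConstLp 2 hBm hBfin (1 : ℂ) =ᵐ[volume] B.indicator (fun _ => (1 : ℂ)) :=
      indicatorConstLp_coeFn
    filter_upwards [Lp.coeFn_sub (Sh n (chi s t)) (chi s t), wc_ae (chiB n) (hh n) (chi s t),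
      chi_ae s t, shift_ae (hh n) (chi_ae s t), hci,
      Lp.coeFn_neg (indicatorConstLp 2 hBm hBfin (1 : ℂ))] with x h1 h2 h3 h4 h5 h6
    rw [sub_apply, one_apply_eq_self, h1, Pi.sub_apply, Sh, h2, h3, h4, h6, Pi.neg_apply, h5]
    by_cases h : ⌊(x + hh n) * n.factorial⌋ = ⌊x * n.factorial⌋
    · have hcs : x + hh n < s ↔ x < s := lt_iff_of_cell ⟨a, ha⟩ h
      have hct : x + hh n < t ↔ x < t := lt_iff_of_cell ⟨b, hb⟩ h
      have hmem : x + hh n ∈ Ico s t ↔ x ∈ Ico s t := by
        rw [mem_Ico, mem_Ico, hct, ← not_lt, ← not_lt, hcs]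
      have hB' : x ∉ B := fun hx => hx.2 h
      by_cases hx : x ∈ Ico s t
      · have hx' := hmem.mpr hx
        simp [chiB, h, hx, hx', hB']
      · have hx' : x + hh n ∉ Ico s t := fun h' => hx (hmem.mp h')
        simp [hx, hx', hB']
    · by_cases hx : x ∈ Ico s t
      · have hB' : x ∈ B := ⟨hx, h⟩
        simp [chiB, h, hx, hB']
      · have hB' : x ∉ B := fun h' => hx h'.1
        simp [chiB, h, hx, hB']
  rw [heq, norm_neg, norm_indicatorConstLp (by norm_num) (by norm_num)]
  simp only [norm_one, one_mul, ENNReal.toReal_ofNat]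
  apply Real.rpow_le_rpow measureReal_nonneg _ (by norm_num)
  rw [Measure.real]
  exact ENNReal.toReal_le_of_le_ofReal (by positivity) hmeas

lemma Lev_of_den {t : ℚ} {n : ℕ} (h : t.den ≤ n) : Lev n (t : ℝ) := by
  obtain ⟨r, hr⟩ := Nat.dvd_factorial t.den_pos h
  refine ⟨t.num * r, ?_⟩
  rw [hr]
  push_cast
  rw [← mul_assoc]
  congr 1
  have := Rat.mul_den_eq_num t
  exact_mod_cast this

lemma Sh_tendsto (ξ : L2) : Tendsto (fun n : ℕ => (Sh n - 1) ξ) atTop (𝓝 0) := by
  apply tendsto_of_total (fun n => Sh n - 1) 2 _ _ ξ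
  · intro n
    calc ‖Sh n - 1‖ ≤ ‖Sh n‖ + ‖(1 : L2 →L[ℂ] L2)‖ := norm_sub_le _ _
      _ ≤ 1 + 1 := add_le_add (Sh_norm n) (by
          have := norm_id_le (𝕜 := ℂ) (E := L2)
          exact this)
      _ = 2 := by norm_num
  · intro s t
    have hb : Tendsto (fun n : ℕ => (|(t : ℝ) - s| / ((n : ℝ) + 1)) ^ (1 / 2 : ℝ)) atTop (𝓝 0) := by
      have h1 : Tendsto (fun n : ℕ => |(t : ℝ) - s| / ((n : ℝ) + 1)) atTop (𝓝 0) := by
        have := (tendsto_one_div_add_atTop_nhds_zero_nat (𝕜 := ℝ)).const_mul |(t : ℝ) - s|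
        simpa [div_eq_mul_inv] using this
      have h2 := h1.rpow_const (p := (1 / 2 : ℝ)) (Or.inr (by norm_num))
      simpa using h2
    apply squeeze_zero_norm' _ hb
    filter_upwards [eventually_ge_atTop (max s.den t.den)] with n hn
    exact Sh_chi (Lev_of_den ((le_max_left _ _).trans hn)) (Lev_of_den ((le_max_right _ _).trans hn))

end Pool.Agent.Lib.MP_0de7f2_an
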