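import Pool.Agent.Lib.MP_0de7f2_an.Maximal

set_option autoImplicit false

open Filter Topology ContinuousLinearMap

namespace Pool.Agent.Lib.MP_0de7f2_an

variable {K H : Type} [NormedAddCommGroup K] [InnerProductSpace ℂ K] [CompleteSpace K]
  [NormedAddCommGroup H] [InnerProductSpace ℂ H] [CompleteSpace H]

/-- Rank-one operator `⟪u, ·⟫ v`. -/
noncomputable def R (v u : H) : H →L[ℂ] H := (innerSL ℂ u).smulRight v

lemma R_apply (v u x : H) : R v u x = (inner ℂ u x) • v := by
  simp [R]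

lemma R_self_adj (v : H) : star (R v v) = R v v := by
  rw [star_eq_adjoint]
  symm
  rw [eq_adjoint_iff]
  intro x y
  rw [R_apply, R_apply, inner_smul_left, inner_smul_right, inner_conj_symm]
  ring

section Main

variable {ι : Type} {N : Nest ι K} (S : Asym N) (β : Blocks K H)

/-- If a rank-one projection onto `ζ` commutes with the nest then `ζ = 0`. -/
lemma rank_one_dg (ζ : K) (h : ∀ i, ∀ ξ, (inner ℂ ζ (N.P i ξ)) • ζ = N.P i ((inner ℂ ζ ξ) • ζ)) :
    ζ = 0 := by
  apply N.diffuse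
  intro i
  have h1 := h i ζ
  rw [map_smul] at h1
  by_cases hz : ζ = 0
  · left; rw [hz, map_zero]
  have hn : (inner ℂ ζ ζ : ℂ) ≠ 0 := by
    simpa using hz
  -- P ζ = c ζ
  obtain ⟨c, hc⟩ : ∃ c : ℂ, N.P i ζ = c • ζ := by
    refine ⟨(inner ℂ ζ ζ : ℂ)⁻¹ * inner ℂ ζ (N.P i ζ), ?_⟩
    rw [mul_smul, h1, smul_smul, inv_mul_cancel₀ hn, one_smul]
  have h2 : N.P i (N.P i ζ) = N.P i ζ := by
    have := congrArg (fun T => T ζ) (N.idem i)
    simpa using this
  rw [hc, map_smul, hc, smul_smul] at h2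
  have h3 : (c * c - c) • ζ = 0 := by rw [sub_smul, h2, sub_self]
  rcases smul_eq_zero.mp h3 with h4 | h4
  · have h5 : c * (c - 1) = 0 := by linear_combination h4
    rcases mul_eq_zero.mp h5 with h6 | h6
    · left; rw [hc, h6, zero_smul]
    · right; rw [hc, sub_eq_zero.mp h6, one_smul]
  · exact absurd h4 hz

/-- The projection `P i ⊕ P i`. -/
def PP (N : Nest ι K) (β : Blocks K H) (i : ι) : H →L[ℂ] H := β.ofE (N.P i) 0 0 (N.P i)

lemma PP_idem (i : ι) : PP N β i * PP N β i = PP N β i := by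
  apply β.ext_entries
  · rw [β.e11_mul]; simp [PP, N.idem]
  · rw [β.e12_mul]; simp [PP]
  · rw [β.e21_mul]; simp [PP]
  · rw [β.e22_mul]; simp [PP, N.idem]

lemma PP_star (i : ι) : star (PP N β i) = PP N β i := by
  apply β.ext_entries
  · rw [β.e11_star]; simp [PP, N.sa]
  · rw [β.e12_star]; simp [PP]
  · rw [β.e21_star]; simp [PP]
  · rw [β.e22_star]; simp [PP, N.sa]

lemma corner_entries (i : ι) (y : H →L[ℂ] H) :
    PP N β i * y * (1 - PP N β i) ∈ T0 S β := by
  have e1 : 1 - PP N β i = β.ofE (1 - N.P i) 0 0 (1 - N.P i) := by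
    have h1 : (1 : H →L[ℂ] H) = β.ofE 1 0 0 1 := by
      apply β.ext_entries
      · rw [β.e11_ofE]; have := β.e11_smul_one 1; simpa using this
      · rw [β.e12_ofE]; have := β.e12_smul_one 1; simpa using this
      · rw [β.e21_ofE]; have := β.e21_smul_one 1; simpa using this
      · rw [β.e22_ofE]; have := β.e22_smul_one 1; simpa using this
    rw [h1]
    ext ξ
    simp only [PP, Blocks.ofE, sub_apply, add_apply, coe_comp, Function.comp_apply, map_sub]
    simp
    abel
  rw [e1, mem_T0]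
  have hII : ∀ x : K →L[ℂ] K, S.II (N.P i * x * (1 - N.P i)) := fun x => S.conv_corner i x
  refine ⟨?_, ?_, ?_, ?_⟩
  · have : β.e11 (PP N β i * y * β.ofE (1 - N.P i) 0 0 (1 - N.P i)) =
      N.P i * β.e11 y * (1 - N.P i) := by
      rw [β.e11_mul, β.e11_mul, β.e12_mul]; simp [PP]
    rw [this]; exact (hII _).bb
  · have : β.e12 (PP N β i * y * β.ofE (1 - N.P i) 0 0 (1 - N.P i)) =
      N.P i * β.e12 y * (1 - N.P i) := by
      rw [β.e12_mul, β.e11_mul, β.e12_mul]; simp [PP]
    rw [this]; exact hII _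
  · have : β.e21 (PP N β i * y * β.ofE (1 - N.P i) 0 0 (1 - N.P i)) =
      N.P i * β.e21 y * (1 - N.P i) := by
      rw [β.e21_mul, β.e21_mul, β.e22_mul]; simp [PP]
    rw [this]; exact (hII _).bb
  · have : β.e22 (PP N β i * y * β.ofE (1 - N.P i) 0 0 (1 - N.P i)) =
      N.P i * β.e22 y * (1 - N.P i) := by
      rw [β.e22_mul, β.e21_mul, β.e22_mul]; simp [PP]
    rw [this]; exact (hII _).bb

lemma PP_mem (i : ι) : PP N β i ∈ T0 S β := by
  apply DD_subset_T0
  refine ⟨?_, ?_, ?_, ?_⟩ <;> simp [PP, N.dg_P]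

lemma DD_rank_one (ζ : H) (h : R ζ ζ ∈ DD N β) : ζ = 0 := by
  obtain ⟨h1, -, -, h4⟩ := h
  have inn1 : ∀ ξ : K, inner ℂ ζ (β.i1 ξ) = inner ℂ (β.p1 ζ) ξ := by
    intro ξ
    rw [← β.a1, adjoint_inner_left]
  have inn2 : ∀ ξ : K, inner ℂ ζ (β.i2 ξ) = inner ℂ (β.p2 ζ) ξ := by
    intro ξ
    rw [← β.a2, adjoint_inner_left]
  have z1 : β.p1 ζ = 0 := by
    apply rank_one_dg (N := N)
    intro i ξ
    have := congrArg (fun T => T ξ) (h1 i)
    simp only [Blocks.e11, mul_apply_eq_comp, coe_comp, Function.comp_apply, R_apply, inn1,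
      map_smul] at this
    rw [map_smul]
    exact this
  have z2 : β.p2 ζ = 0 := by
    apply rank_one_dg (N := N)
    intro i ξ
    have := congrArg (fun T => T ξ) (h4 i)
    simp only [Blocks.e22, mul_apply_eq_comp, coe_comp, Function.comp_apply, R_apply, inn2,
      map_smul] at this
    rw [map_smul]
    exact this
  rw [← β.hsum ζ, z1, z2, map_zero, map_zero, add_zero]

/-- All elements of a triangular extension leave the nest `P i ⊕ P i` invariant. -/
lemma leaves (T : Subalgebra ℂ (H →L[ℂ] H)) (h0 : T0 S β ≤ T)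
    (h : ∀ x ∈ T, star x ∈ T → x ∈ DD N β) (x : H →L[ℂ] H) (hx : x ∈ T) (i : ι) :
    (1 - PP N β i) * x * PP N β i = 0 := by
  set p := PP N β i with hp
  set z := (1 - p) * x * p with hz
  have hps : star p = p := PP_star β i
  have hpp : p * p = p := PP_idem β i
  have hpT : p ∈ T := h0 (PP_mem S β i)
  suffices hs : star z = 0 by
    have := congrArg star hs
    rwa [star_star, star_zero] at this
  ext u
  rw [zero_apply]
  set ζ := star z u with hζ
  have hpz : p ζ = ζ := by
    have h1 : p * star z = star z := by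
      rw [hz, star_mul, star_mul, hps, ← mul_assoc, hpp]
    have := congrArg (fun T => T u) h1
    simpa using this
  have key : R ζ ζ = (p * R ζ u * (1 - p)) * x * p := by
    ext ξ
    have h1 : (p * R ζ u * (1 - p)) * x * p = p * R ζ u * z := by
      rw [hz]; simp only [mul_assoc]
    rw [h1, mul_apply_eq_comp, mul_apply_eq_comp, R_apply, R_apply, map_smul, hpz]
    congr 1
    rw [hζ, star_eq_adjoint, adjoint_inner_left]
  have hmem : R ζ ζ ∈ T := by
    rw [key]
    exact T.mul_mem (T.mul_mem (h0 (corner_entries S β i _)) hx) hpT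
  apply DD_rank_one (N := N) β ζ
  exact h _ hmem (by rw [R_self_adj]; exact hmem)

lemma e11_mem (T : Subalgebra ℂ (H →L[ℂ] H)) (h0 : T0 S β ≤ T)
    (h : ∀ x ∈ T, star x ∈ T → x ∈ DD N β) (x : H →L[ℂ] H) (hx : x ∈ T) :
    N.Mem (β.e11 x) := by
  intro i
  have h1 := leaves S β T h0 h x hx i
  have h2 : x * PP N β i = PP N β i * x * PP N β i := by
    rw [sub_mul, sub_mul, one_mul, sub_eq_zero] at h1
    exact h1
  have h3 := congrArg β.e11 h2
  rw [β.e11_mul, β.e11_mul, β.e11_mul, β.e12_mul] at h3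
  simpa [PP, mul_assoc] using h3

end Main

end Pool.Agent.Lib.MP_0de7f2_an
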