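import Pool.Agent.Lib.MP_0de7f2_an.Theta
import Pool.Agent.Lib.MP_0de7f2_an.Contra

set_option autoImplicit false

open MeasureTheory Filter Topology ContinuousLinearMap Set

namespace Pool.Agent.Lib.MP_0de7f2_an

/-- Coefficients. -/
noncomputable def ee (n : ℕ) : ℂ := 1 / 2 ^ (n + 2)

lemma ee_norm (n : ℕ) : ‖ee n‖ = (1 / 2 : ℝ) ^ (n + 2) := by
  simp [ee]

lemma ee_zz (n : ℕ) : ee n * zz n = -1 := by
  unfold ee zz
  field_simp

lemma mem_tsum {f : ℕ → L2 →L[ℂ] L2} (hs : Summable f) (h : ∀ n, NN.Mem (f n)) :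
    NN.Mem (∑' n, f n) := by
  intro t
  change (∑' n, f n) * Pr t = Pr t * ((∑' n, f n) * Pr t)
  have hs2 : Summable (fun n => f n * Pr t) := hs.mul_right _
  rw [← hs.tsum_mul_right, ← hs2.tsum_mul_left]
  congr 1
  ext1 n
  exact h n t

lemma comm_tsum {f : ℕ → L2 →L[ℂ] L2} (hs : Summable f) (A : L2 →L[ℂ] L2)
    (h : ∀ n, f n * A = A * f n) : (∑' n, f n) * A = A * ∑' n, f n := by
  rw [← hs.tsum_mul_right, ← hs.tsum_mul_left]
  congr 1
  ext1 n
  exact h n

lemma fSh_norm (n : ℕ) : ‖ee n • Sh n‖ ≤ (1 / 2 : ℝ) ^ (n + 2) := by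
  rw [norm_smul, ee_norm]
  exact mul_le_of_le_one_right (by positivity) (Sh_norm n)

lemma hasSum_tail (m : ℕ) : HasSum (fun n : ℕ => (1 / 2 : ℝ) ^ (n + m + 2)) ((1 / 2) ^ (m + 1)) := by
  have h := (hasSum_geometric_of_lt_one (r := (1 / 2 : ℝ)) (by norm_num) (by norm_num)).mul_left
    ((1 / 2 : ℝ) ^ (m + 2))
  convert! h using 1
  · ext n
    rw [← pow_add]
    congr 1
    ring
  · rw [pow_succ]
    norm_num
    ring

lemma fSh_summable : Summable (fun n => ee n • Sh n) := by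
  apply Summable.of_norm_bounded (g := fun n : ℕ => (1 / 2 : ℝ) ^ (n + 0 + 2))
    (hasSum_tail 0).summable
  intro n
  exact fSh_norm n

/-- The perturbation. -/
noncomputable def cc : L2 →L[ℂ] L2 := ∑' n, ee n • Sh n

/-- Its tails. -/
noncomputable def rr (m : ℕ) : L2 →L[ℂ] L2 := ∑' n, ee (n + (m + 1)) • Sh (n + (m + 1))

lemma tail_summable (m : ℕ) : Summable (fun n => ee (n + (m + 1)) • Sh (n + (m + 1))) :=
  (summable_nat_add_iff (m + 1)).mpr fSh_summable

lemma cc_eq (m : ℕ) : cc = ∑ n ∈ Finset.range (m + 1), ee n • Sh n + rr m :=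
  (fSh_summable.sum_add_tsum_nat_add (m + 1)).symm

lemma cc_norm : ‖cc‖ ≤ 1 / 2 := by
  have := tsum_of_norm_bounded (hasSum_tail 0) (f := fun n => ee n • Sh n) (fun n => fSh_norm n)
  simpa [cc] using this

lemma rr_norm (m : ℕ) : ‖rr m‖ ≤ (1 / 2) ^ (m + 2) := by
  have := tsum_of_norm_bounded (hasSum_tail (m + 1))
    (f := fun n => ee (n + (m + 1)) • Sh (n + (m + 1))) (fun n => fSh_norm (n + (m + 1)))
  exact this

/-- The invertible element and its inverse. -/
noncomputable def aa : L2 →L[ℂ] L2 := 1 + cc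
noncomputable def bb : L2 →L[ℂ] L2 := ∑' n : ℕ, (-cc) ^ n

lemma cc_mem : NN.Mem cc := mem_tsum fSh_summable (fun n => NN.mem_smul _ (Sh_mem n))

lemma aa_mem : NN.Mem aa := NN.mem_add NN.dg_one.mem cc_mem

lemma neg_cc_norm : ‖-cc‖ < 1 := by
  rw [norm_neg]
  exact cc_norm.trans_lt (by norm_num)

lemma bb_mem : NN.Mem bb := by
  apply mem_tsum (summable_geometric_of_norm_lt_one neg_cc_norm)
  intro n
  induction n with
  | zero => rw [pow_zero]; exact NN.dg_one.mem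
  | succ n ih =>
    rw [pow_succ]
    apply NN.mem_mul ih
    rw [← neg_one_smul ℂ]
    exact NN.mem_smul _ cc_mem

lemma bb_aa : bb * aa = 1 := by
  have := geom_series_mul_neg (-cc) neg_cc_norm
  rwa [sub_neg_eq_add] at this

lemma Th_rr (m : ℕ) : Th m (rr m) = wi m * rr m := by
  apply Th_comm
  · intro k
    apply comm_tsum (tail_summable m)
    intro n
    rw [smul_mul_assoc, mul_smul_comm,
      Sh_comm_Pr ((tq_lev m k).mono (show m ≤ n + (m + 1) by omega))]
  · apply comm_tsum (tail_summable m)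
    intro n
    rw [smul_mul_assoc, mul_smul_comm, Sh_comm_Wo (show m < n + (m + 1) by omega)]

lemma Th_aa (m : ℕ) : Th m aa = wi m * (1 - Sh m + rr m) := by
  have h1 : Th m (∑ n ∈ Finset.range (m + 1), ee n • Sh n) = - (wi m * Sh m) := by
    rw [map_sum, Finset.sum_eq_single m]
    · rw [map_smul, Th_Sh_eq, smul_smul, ee_zz, neg_one_smul]
    · intro n hn hnm
      rw [Finset.mem_range] at hn
      rw [map_smul, Th_Sh_lt (by omega), smul_zero]
    · intro h
      exact absurd (Finset.mem_range.mpr (Nat.lt_succ_self m)) h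
  rw [aa, cc_eq m, map_add, map_add, h1, Th_rr, Th_dg m NN.dg_one]
  rw [mul_add, mul_sub]
  abel

lemma Th_aa_bdd : ∃ C : ℝ, ∀ m, ‖Th m aa‖ ≤ C := by
  refine ⟨1 * (1 + 1 + 1), fun m => ?_⟩
  rw [Th_aa]
  refine (norm_mul_le _ _).trans (mul_le_mul (wi_norm m) ?_ (norm_nonneg _) zero_le_one)
  refine (norm_add_le _ _).trans (add_le_add ((norm_sub_le _ _).trans (add_le_add ?_ (Sh_norm m))) ?_)
  · have := norm_id_le (𝕜 := ℂ) (E := L2)
    exact this
  · exact (rr_norm m).trans (pow_le_one₀ (by norm_num) (by norm_num))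

lemma Th_aa_tendsto (ξ : L2) : Tendsto (fun m => Th m aa ξ) atTop (𝓝 0) := by
  have hb : Tendsto (fun m : ℕ => ‖(Sh m - 1) ξ‖ + (1 / 2 : ℝ) ^ (m + 2) * ‖ξ‖) atTop (𝓝 0) := by
    have h1 := (Sh_tendsto ξ).norm
    have h2 : Tendsto (fun m : ℕ => (1 / 2 : ℝ) ^ (m + 2)) atTop (𝓝 0) :=
      (tendsto_pow_atTop_nhds_zero_of_lt_one (by norm_num) (by norm_num)).comp
        (tendsto_add_atTop_nat 2)
    have h3 := h1.add (h2.mul_const ‖ξ‖)
    simpa using h3
  apply squeeze_zero_norm _ hb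
  intro m
  rw [Th_aa, mul_apply_eq_comp]
  have h1 : ‖wi m ((1 - Sh m + rr m) ξ)‖ ≤ 1 * ‖(1 - Sh m + rr m) ξ‖ :=
    (wi m).le_of_opNorm_le (wi_norm m) _
  rw [one_mul] at h1
  refine h1.trans ?_
  rw [add_apply]
  refine (norm_add_le _ _).trans (add_le_add ?_ ((rr m).le_of_opNorm_le (rr_norm m) _))
  rw [sub_apply, sub_apply, norm_sub_rev]

/-- The asymptotic homomorphisms. -/
noncomputable def AS : Asym NN where
  Θ := Th
  mul := Th_mul
  dg_bdd := Th_dg_bdd
  dg_tendsto := Th_dg_tendsto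
  corner := Th_corner
  a := aa
  b := bb
  a_mem := aa_mem
  b_mem := bb_mem
  ba := bb_aa
  a_bdd := Th_aa_bdd
  a_tendsto := Th_aa_tendsto

/-- The big space. -/
noncomputable abbrev HH := WithLp 2 (L2 × L2)

noncomputable def toH : (L2 × L2) →L[ℂ] HH :=
  ((WithLp.prodContinuousLinearEquiv 2 ℂ L2 L2).symm : (L2 × L2) →L[ℂ] HH)

noncomputable def BL : Blocks L2 HH where
  i1 := toH ∘L ContinuousLinearMap.inl ℂ L2 L2
  i2 := toH ∘L ContinuousLinearMap.inr ℂ L2 L2
  p1 := WithLp.fstL 2 ℂ L2 L2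
  p2 := WithLp.sndL 2 ℂ L2 L2
  h11 := fun x => by simp [toH]
  h12 := fun x => by simp [toH]
  h21 := fun x => by simp [toH]
  h22 := fun x => by simp [toH]
  hsum := fun y => by
    simp only [toH, coe_comp, Function.comp_apply]
    rw [← map_add]
    simp only [inl_apply, inr_apply, Prod.mk_add_mk, add_zero, zero_add, ContinuousLinearEquiv.coe_coe,
      WithLp.prodContinuousLinearEquiv_symm_apply]
    rfl
  a1 := by
    symm
    rw [eq_adjoint_iff]
    intro x y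
    simp [toH]
  a2 := by
    symm
    rw [eq_adjoint_iff]
    intro x y
    simp [toH]

lemma nontriv : Nontrivial L2 := by
  refine ⟨chi 0 1, 0, ?_⟩
  intro h
  have h1 : ‖chi 0 1‖ = 0 := by rw [h, norm_zero]
  rw [chi, norm_indicatorConstLp (by norm_num) (by norm_num)] at h1
  simp [Measure.real] at h1

theorem final :
    ¬ (∀ (H : Type) [NormedAddCommGroup H] [InnerProductSpace ℂ H] [CompleteSpace H]
    (T : Subalgebra ℂ (H →L[ℂ] H)),
    (Set.centralizer {x | x ∈ T ∧ star x ∈ T} = {x | x ∈ T ∧ star x ∈ T} ∧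
      ∀ B : Subalgebra ℂ (H →L[ℂ] H), T ≤ B →
        Set.centralizer {x | x ∈ B ∧ star x ∈ B} = {x | x ∈ B ∧ star x ∈ B} → B = T) →
    ∀ (K : Submodule ℂ H) [CompleteSpace K],
      K.subtypeL ∘L K.orthogonalProjectionOnto ∈ T →
      ∃ S : Subalgebra ℂ (K →L[ℂ] K),
        (S : Set (K →L[ℂ] K)) =
          (fun A : H →L[ℂ] H => K.orthogonalProjectionOnto ∘L A ∘L K.subtypeL) ''
            (T : Set (H →L[ℂ] H)) ∧
        Set.centralizer {x | x ∈ S ∧ star x ∈ S} = {x | x ∈ S ∧ star x ∈ S} ∧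
        ∀ B : Subalgebra ℂ (K →L[ℂ] K), S ≤ B →
          Set.centralizer {x | x ∈ B ∧ star x ∈ B} = {x | x ∈ B ∧ star x ∈ B} → B = S) := by
  intro h
  have := nontriv
  exact contra AS BL (fun T hT K hK hm => h HH T hT K hm)

end Pool.Agent.Lib.MP_0de7f2_an
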