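import Pool.Agent.Lib.MP_0de7f2_an.Abstract

set_option autoImplicit false

open Filter Topology ContinuousLinearMap

namespace Pool.Agent.Lib.MP_0de7f2_an

variable {K H : Type} [NormedAddCommGroup K] [InnerProductSpace ℂ K] [CompleteSpace K]
  [NormedAddCommGroup H] [InnerProductSpace ℂ H] [CompleteSpace H]

namespace Blocks

variable (β : Blocks K H)

lemma e11_add (x y : H →L[ℂ] H) : β.e11 (x + y) = β.e11 x + β.e11 y := by
  ext ξ; simp [e11]
lemma e12_add (x y : H →L[ℂ] H) : β.e12 (x + y) = β.e12 x + β.e12 y := by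
  ext ξ; simp [e12]
lemma e21_add (x y : H →L[ℂ] H) : β.e21 (x + y) = β.e21 x + β.e21 y := by
  ext ξ; simp [e21]
lemma e22_add (x y : H →L[ℂ] H) : β.e22 (x + y) = β.e22 x + β.e22 y := by
  ext ξ; simp [e22]

lemma e11_smul_one (c : ℂ) : β.e11 (c • (1 : H →L[ℂ] H)) = c • (1 : K →L[ℂ] K) := by
  ext ξ; simp [e11, β.h11]
lemma e12_smul_one (c : ℂ) : β.e12 (c • (1 : H →L[ℂ] H)) = 0 := by
  ext ξ; simp [e12, β.h12]
lemma e21_smul_one (c : ℂ) : β.e21 (c • (1 : H →L[ℂ] H)) = 0 := by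
  ext ξ; simp [e21, β.h21]
lemma e22_smul_one (c : ℂ) : β.e22 (c • (1 : H →L[ℂ] H)) = c • (1 : K →L[ℂ] K) := by
  ext ξ; simp [e22, β.h22]

lemma p1_adj : adjoint β.p1 = β.i1 := by rw [← β.a1, adjoint_adjoint]
lemma p2_adj : adjoint β.p2 = β.i2 := by rw [← β.a2, adjoint_adjoint]

lemma e11_star (x : H →L[ℂ] H) : β.e11 (star x) = star (β.e11 x) := by
  simp only [e11, star_eq_adjoint, adjoint_comp, β.a1, β.p1_adj, comp_assoc]
lemma e12_star (x : H →L[ℂ] H) : β.e12 (star x) = star (β.e21 x) := by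
  simp only [e12, e21, star_eq_adjoint, adjoint_comp, β.a1, β.p2_adj, comp_assoc]
lemma e21_star (x : H →L[ℂ] H) : β.e21 (star x) = star (β.e12 x) := by
  simp only [e12, e21, star_eq_adjoint, adjoint_comp, β.a2, β.p1_adj, comp_assoc]
lemma e22_star (x : H →L[ℂ] H) : β.e22 (star x) = star (β.e22 x) := by
  simp only [e22, star_eq_adjoint, adjoint_comp, β.a2, β.p2_adj, comp_assoc]

/-- Operator with given entries. -/
def ofE (a b c d : K →L[ℂ] K) : H →L[ℂ] H :=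
  (β.i1 ∘L a) ∘L β.p1 + (β.i1 ∘L b) ∘L β.p2 + (β.i2 ∘L c) ∘L β.p1 + (β.i2 ∘L d) ∘L β.p2

@[simp] lemma e11_ofE (a b c d : K →L[ℂ] K) : β.e11 (β.ofE a b c d) = a := by
  ext ξ; simp [e11, ofE, β.h11, β.h12, β.h21, β.h22]
@[simp] lemma e12_ofE (a b c d : K →L[ℂ] K) : β.e12 (β.ofE a b c d) = b := by
  ext ξ; simp [e12, ofE, β.h11, β.h12, β.h21, β.h22]
@[simp] lemma e21_ofE (a b c d : K →L[ℂ] K) : β.e21 (β.ofE a b c d) = c := by
  ext ξ; simp [e21, ofE, β.h11, β.h12, β.h21, β.h22]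
@[simp] lemma e22_ofE (a b c d : K →L[ℂ] K) : β.e22 (β.ofE a b c d) = d := by
  ext ξ; simp [e22, ofE, β.h11, β.h12, β.h21, β.h22]

lemma ext_entries {x y : H →L[ℂ] H} (h1 : β.e11 x = β.e11 y) (h2 : β.e12 x = β.e12 y)
    (h3 : β.e21 x = β.e21 y) (h4 : β.e22 x = β.e22 y) : x = y := by
  ext η
  have k1 : ∀ ξ, x (β.i1 ξ) = y (β.i1 ξ) := by
    intro ξ
    rw [← β.hsum (x (β.i1 ξ)), ← β.hsum (y (β.i1 ξ))]
    have e1 := congrArg (fun T => T ξ) h1
    have e2 := congrArg (fun T => T ξ) h3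
    simp only [e11, e21, coe_comp, Function.comp_apply] at e1 e2
    rw [e1, e2]
  have k2 : ∀ ξ, x (β.i2 ξ) = y (β.i2 ξ) := by
    intro ξ
    rw [← β.hsum (x (β.i2 ξ)), ← β.hsum (y (β.i2 ξ))]
    have e1 := congrArg (fun T => T ξ) h2
    have e2 := congrArg (fun T => T ξ) h4
    simp only [e12, e22, coe_comp, Function.comp_apply] at e1 e2
    rw [e1, e2]
  rw [← β.hsum η, map_add, map_add, k1, k2]

end Blocks

section Main

variable {ι : Type} {N : Nest ι K} (S : Asym N) (β : Blocks K H)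

/-- The starting triangular algebra. -/
def T0 : Subalgebra ℂ (H →L[ℂ] H) where
  carrier := {x | S.BB (β.e11 x) ∧ S.II (β.e12 x) ∧ S.BB (β.e21 x) ∧ S.BB (β.e22 x)}
  mul_mem' := by
    rintro x y ⟨x1, x2, x3, x4⟩ ⟨y1, y2, y3, y4⟩
    refine ⟨?_, ?_, ?_, ?_⟩
    · rw [β.e11_mul]
      exact (x1.mul S y1).add S (x2.bb.mul S y3)
    · rw [β.e12_mul]
      exact (Asym.II.mul_left S x1 y2).add S (Asym.II.mul_right S x2 y4)
    · rw [β.e21_mul]
      exact (x3.mul S y1).add S (x4.mul S y3)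
    · rw [β.e22_mul]
      exact (x3.mul S y2.bb).add S (x4.mul S y4)
  add_mem' := by
    rintro x y ⟨x1, x2, x3, x4⟩ ⟨y1, y2, y3, y4⟩
    refine ⟨?_, ?_, ?_, ?_⟩
    · rw [β.e11_add]; exact x1.add S y1
    · rw [β.e12_add]; exact x2.add S y2
    · rw [β.e21_add]; exact x3.add S y3
    · rw [β.e22_add]; exact x4.add S y4
  algebraMap_mem' := by
    intro c
    rw [Algebra.algebraMap_eq_smul_one]
    have h0 : S.II 0 := S.conv_dg N.dg_zero
    have h1 : S.BB (c • (1 : K →L[ℂ] K)) := S.bb_dg (N.dg_smul c N.dg_one)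
    refine ⟨?_, ?_, ?_, ?_⟩
    · rw [β.e11_smul_one]; exact h1
    · rw [β.e12_smul_one]; exact h0
    · rw [β.e21_smul_one]; exact h0.bb
    · rw [β.e22_smul_one]; exact h1

lemma mem_T0 {x : H →L[ℂ] H} : x ∈ T0 S β ↔
    S.BB (β.e11 x) ∧ S.II (β.e12 x) ∧ S.BB (β.e21 x) ∧ S.BB (β.e22 x) := Iff.rfl

/-- The diagonal masa on `H`. -/
def DD (N : Nest ι K) (β : Blocks K H) : Set (H →L[ℂ] H) :=
  {x | N.Dg (β.e11 x) ∧ β.e12 x = 0 ∧ β.e21 x = 0 ∧ N.Dg (β.e22 x)}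

lemma DD_subset_T0 {x : H →L[ℂ] H} (hx : x ∈ DD N β) : x ∈ T0 S β := by
  obtain ⟨h1, h2, h3, h4⟩ := hx
  have h0 : S.II 0 := S.conv_dg N.dg_zero
  refine ⟨S.bb_dg h1, ?_, ?_, S.bb_dg h4⟩
  · rw [h2]; exact h0
  · rw [h3]; exact h0.bb

lemma DD_star {x : H →L[ℂ] H} (hx : x ∈ DD N β) : star x ∈ DD N β := by
  obtain ⟨h1, h2, h3, h4⟩ := hx
  refine ⟨?_, ?_, ?_, ?_⟩
  · rw [β.e11_star]; exact h1.star
  · rw [β.e12_star, h3, star_zero]
  · rw [β.e21_star, h2, star_zero]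
  · rw [β.e22_star]; exact h4.star

lemma T0_inter {x : H →L[ℂ] H} (hx : x ∈ T0 S β) (hx' : star x ∈ T0 S β) : x ∈ DD N β := by
  obtain ⟨x1, x2, x3, x4⟩ := hx
  obtain ⟨y1, y2, y3, y4⟩ := hx'
  rw [β.e11_star] at y1
  rw [β.e12_star] at y2
  rw [β.e21_star] at y3
  rw [β.e22_star] at y4
  have hmem : ∀ {z : K →L[ℂ] K}, S.BB z → N.Mem z := fun h => by
    obtain ⟨d, _, h'⟩ := h
    exact h'.1
  refine ⟨N.dg_of_mem_star (hmem x1) (hmem y1), ?_, ?_, N.dg_of_mem_star (hmem x4) (hmem y4)⟩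
  · exact x2.eq_zero S (N.dg_of_mem_star (hmem x2.bb) (hmem y3))
  · have h := y2.eq_zero S (Nest.Dg.star (N.dg_of_mem_star (hmem x3) (hmem y2.bb)))
    have := congrArg star h
    rwa [star_star, star_zero] at this

lemma DD_comm {x y : H →L[ℂ] H} (hx : x ∈ DD N β) (hy : y ∈ DD N β) : x * y = y * x := by
  obtain ⟨h1, h2, h3, h4⟩ := hx
  obtain ⟨k1, k2, k3, k4⟩ := hy
  apply β.ext_entries
  · rw [β.e11_mul, β.e11_mul, h2, k2, zero_mul, zero_mul, N.comm _ _ h1 k1]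
  · rw [β.e12_mul, β.e12_mul, h2, k2]; simp
  · rw [β.e21_mul, β.e21_mul, h3, k3]; simp
  · rw [β.e22_mul, β.e22_mul, h3, k3, zero_mul, zero_mul, N.comm _ _ h4 k4]

lemma centralizer_DD : Set.centralizer (DD N β) = DD N β := by
  ext y
  constructor
  · intro hy
    rw [Set.mem_centralizer_iff] at hy
    -- commute with the projection on the first summand
    have hE : β.ofE 1 0 0 0 ∈ DD N β := by
      refine ⟨?_, ?_, ?_, ?_⟩
      · rw [β.e11_ofE]; exact N.dg_one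
      · rw [β.e12_ofE]
      · rw [β.e21_ofE]
      · rw [β.e22_ofE]; exact N.dg_zero
    have h := hy _ hE
    have h12 := congrArg β.e12 h
    have h21 := congrArg β.e21 h
    rw [β.e12_mul, β.e12_mul] at h12
    rw [β.e21_mul, β.e21_mul] at h21
    simp only [β.e11_ofE, β.e12_ofE, β.e21_ofE, β.e22_ofE, one_mul, zero_mul, mul_zero,
      add_zero, zero_add, mul_one] at h12 h21
    refine ⟨?_, h12, h21.symm, ?_⟩
    · intro i
      have hP : β.ofE (N.P i) 0 0 0 ∈ DD N β := by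
        refine ⟨?_, ?_, ?_, ?_⟩
        · rw [β.e11_ofE]; exact N.dg_P i
        · rw [β.e12_ofE]
        · rw [β.e21_ofE]
        · rw [β.e22_ofE]; exact N.dg_zero
      have h2 := congrArg β.e11 (hy _ hP)
      rw [β.e11_mul, β.e11_mul] at h2
      simp only [β.e11_ofE, β.e12_ofE, β.e21_ofE, zero_mul, mul_zero, add_zero] at h2
      exact h2.symm
    · intro i
      have hP : β.ofE 0 0 0 (N.P i) ∈ DD N β := by
        refine ⟨?_, ?_, ?_, ?_⟩
        · rw [β.e11_ofE]; exact N.dg_zero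
        · rw [β.e12_ofE]
        · rw [β.e21_ofE]
        · rw [β.e22_ofE]; exact N.dg_P i
      have h2 := congrArg β.e22 (hy _ hP)
      rw [β.e22_mul, β.e22_mul] at h2
      simp only [β.e22_ofE, β.e12_ofE, β.e21_ofE, zero_mul, mul_zero, zero_add] at h2
      exact h2.symm
  · intro hy
    rw [Set.mem_centralizer_iff]
    intro x hx
    exact DD_comm β hx hy

/-- Triangularity, as in the problem. -/
def Tri {E : Type} [NormedAddCommGroup E] [InnerProductSpace ℂ E] [CompleteSpace E]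
    (B : Subalgebra ℂ (E →L[ℂ] E)) : Prop :=
  Set.centralizer {x | x ∈ B ∧ star x ∈ B} = {x | x ∈ B ∧ star x ∈ B}

lemma inter_eq_DD {B : Subalgebra ℂ (H →L[ℂ] H)} (h0 : T0 S β ≤ B)
    (h : ∀ x ∈ B, star x ∈ B → x ∈ DD N β) : {x | x ∈ B ∧ star x ∈ B} = DD N β := by
  ext x
  constructor
  · rintro ⟨h1, h2⟩
    exact h x h1 h2
  · intro hx
    exact ⟨h0 (DD_subset_T0 S β hx), h0 (DD_subset_T0 S β (DD_star β hx))⟩

lemma tri_of {B : Subalgebra ℂ (H →L[ℂ] H)} (h0 : T0 S β ≤ B)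
    (h : ∀ x ∈ B, star x ∈ B → x ∈ DD N β) : Tri B := by
  unfold Tri
  rw [inter_eq_DD S β h0 h, centralizer_DD]

lemma of_tri {B : Subalgebra ℂ (H →L[ℂ] H)} (h0 : T0 S β ≤ B) (h : Tri B) :
    ∀ x ∈ B, star x ∈ B → x ∈ DD N β := by
  intro x hx hx'
  rw [← centralizer_DD β, Set.mem_centralizer_iff]
  intro d hd
  have hx2 : x ∈ Set.centralizer {x | x ∈ B ∧ star x ∈ B} := by
    rw [h]; exact ⟨hx, hx'⟩
  rw [Set.mem_centralizer_iff] at hx2
  exact hx2 d ⟨h0 (DD_subset_T0 S β hd), h0 (DD_subset_T0 S β (DD_star β hd))⟩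

/-- Existence of a maximal one, by Zorn. -/
lemma exists_max : ∃ T : Subalgebra ℂ (H →L[ℂ] H), T0 S β ≤ T ∧
    (∀ x ∈ T, star x ∈ T → x ∈ DD N β) ∧
    ∀ B : Subalgebra ℂ (H →L[ℂ] H), T ≤ B → (∀ x ∈ B, star x ∈ B → x ∈ DD N β) → B = T := by
  obtain ⟨T, hT0, hmax⟩ := zorn_le_nonempty₀
    {B : Subalgebra ℂ (H →L[ℂ] H) | T0 S β ≤ B ∧ ∀ x ∈ B, star x ∈ B → x ∈ DD N β}
    (by
      intro c hc hchain y hy
      refine ⟨sSup c, ⟨?_, ?_⟩, fun z hz => le_sSup hz⟩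
      · exact (hc hy).1.trans (le_sSup hy)
      · intro x hx hx'
        have hdir : DirectedOn (· ≤ ·) c := hchain.directedOn
        haveI : Nonempty c := ⟨⟨y, hy⟩⟩
        have hU : ∀ z : H →L[ℂ] H, z ∈ sSup c ↔ ∃ B ∈ c, z ∈ B := by
          intro z
          rw [sSup_eq_iSup', ← SetLike.mem_coe,
            Subalgebra.coe_iSup_of_directed hdir.directed_val]
          simp
        rw [hU] at hx hx'
        obtain ⟨B1, hB1, hx1⟩ := hx
        obtain ⟨B2, hB2, hx2⟩ := hx'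
        rcases hchain.total hB1 hB2 with h | h
        · exact (hc hB2).2 x (h hx1) hx2
        · exact (hc hB1).2 x hx1 (h hx2))
    (T0 S β) ⟨le_rfl, fun x hx hx' => T0_inter S β hx hx'⟩
  refine ⟨T, hT0, hmax.prop.2, ?_⟩
  intro B hTB hB
  exact le_antisymm (hmax.le_of_ge ⟨hT0.trans hTB, hB⟩ hTB) hTB

end Main

end Pool.Agent.Lib.MP_0de7f2_an
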