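import Mathlib

set_option autoImplicit false

open MeasureTheory Filter Topology ContinuousLinearMap

namespace Pool.Agent.Lib.MP_0de7f2_an

/-- The concrete Hilbert space. -/
noncomputable abbrev L2 := Lp ℂ 2 (volume : Measure ℝ)

/-- Bounded measurable functions. -/
structure Bd where
  f : ℝ → ℂ
  meas : Measurable f
  C : ℝ
  bdd : ∀ x, ‖f x‖ ≤ C

lemma Bd.C_nonneg (φ : Bd) : 0 ≤ φ.C := (norm_nonneg _).trans (φ.bdd 0)

lemma memLp_mul (φ : Bd) (g : L2) : MemLp (fun x => φ.f x * g x) 2 volume := by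
  apply MemLp.of_le_mul (c := φ.C) (Lp.memLp g)
  · exact φ.meas.aestronglyMeasurable.mul (Lp.aestronglyMeasurable g)
  · refine Eventually.of_forall fun x => ?_
    rw [norm_mul]
    exact mul_le_mul_of_nonneg_right (φ.bdd x) (norm_nonneg _)

/-- Multiplication operators. -/
noncomputable def mulOp (φ : Bd) : L2 →L[ℂ] L2 :=
  LinearMap.mkContinuous
    { toFun := fun g => (memLp_mul φ g).toLp _
      map_add' := by
        intro f g
        apply Lp.ext
        filter_upwards [MemLp.coeFn_toLp (memLp_mul φ (f + g)), MemLp.coeFn_toLp (memLp_mul φ f),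
          MemLp.coeFn_toLp (memLp_mul φ g), Lp.coeFn_add f g,
          Lp.coeFn_add ((memLp_mul φ f).toLp _) ((memLp_mul φ g).toLp _)] with x h1 h2 h3 h4 h5
        rw [h1, h5, Pi.add_apply, h2, h3, h4, Pi.add_apply, mul_add]
      map_smul' := by
        intro c g
        apply Lp.ext
        filter_upwards [MemLp.coeFn_toLp (memLp_mul φ (c • g)),
          MemLp.coeFn_toLp (memLp_mul φ g), Lp.coeFn_smul c g,
          Lp.coeFn_smul c ((memLp_mul φ g).toLp _)] with x h1 h2 h3 h4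
        rw [h1, h3, RingHom.id_apply, h4, Pi.smul_apply, Pi.smul_apply, h2, smul_eq_mul,
          smul_eq_mul]
        ring }
    φ.C
    (by
      intro g
      apply Lp.norm_le_mul_norm_of_ae_le_mul
      filter_upwards [MemLp.coeFn_toLp (memLp_mul φ g)] with x h1
      simp only [LinearMap.coe_mk, AddHom.coe_mk]
      rw [h1, norm_mul]
      exact mul_le_mul_of_nonneg_right (φ.bdd x) (norm_nonneg _))

lemma mulOp_ae (φ : Bd) (g : L2) : mulOp φ g =ᵐ[volume] fun x => φ.f x * g x :=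
  MemLp.coeFn_toLp (memLp_mul φ g)

/-- Translations. -/
noncomputable def trOp (h : ℝ) : L2 →L[ℂ] L2 :=
  (Lp.compMeasurePreservingₗᵢ ℂ (fun x : ℝ => x + h)
    (measurePreserving_add_right volume h)).toContinuousLinearMap

lemma trOp_ae (h : ℝ) (g : L2) : trOp h g =ᵐ[volume] fun x => g (x + h) :=
  Lp.coeFn_compMeasurePreserving g (measurePreserving_add_right volume h)

lemma trOp_norm (h : ℝ) (g : L2) : ‖trOp h g‖ = ‖g‖ :=
  Lp.norm_compMeasurePreserving g (measurePreserving_add_right volume h)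

/-- Weighted translations. -/
noncomputable def wc (φ : Bd) (h : ℝ) : L2 →L[ℂ] L2 := mulOp φ ∘L trOp h

lemma wc_ae (φ : Bd) (h : ℝ) (g : L2) : wc φ h g =ᵐ[volume] fun x => φ.f x * g (x + h) := by
  filter_upwards [mulOp_ae φ (trOp h g), trOp_ae h g] with x h1 h2
  rw [wc, coe_comp, Function.comp_apply, h1, h2]

lemma wc_norm_le (φ : Bd) (h : ℝ) {C : ℝ} (hC : ∀ x, ‖φ.f x‖ ≤ C) : ‖wc φ h‖ ≤ C := by
  have hC0 : 0 ≤ C := (norm_nonneg _).trans (hC 0)
  apply opNorm_le_bound _ hC0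
  intro g
  rw [← trOp_norm h g]
  apply Lp.norm_le_mul_norm_of_ae_le_mul
  filter_upwards [wc_ae φ h g, trOp_ae h g] with x h1 h2
  rw [h1, h2, norm_mul]
  exact mul_le_mul_of_nonneg_right (hC x) (norm_nonneg _)

lemma shift_ae {f g : ℝ → ℂ} (h : ℝ) (hfg : f =ᵐ[volume] g) :
    (fun x => f (x + h)) =ᵐ[volume] (fun x => g (x + h)) :=
  (measurePreserving_add_right volume h).quasiMeasurePreserving.ae_eq_comp hfg

/-- Product of weights. -/
noncomputable def Bd.mulShift (φ : Bd) (h : ℝ) (ψ : Bd) : Bd where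
  f := fun x => φ.f x * ψ.f (x + h)
  meas := φ.meas.mul (ψ.meas.comp (measurable_id.add_const h))
  C := φ.C * ψ.C
  bdd := fun x => by
    rw [norm_mul]
    exact mul_le_mul (φ.bdd x) (ψ.bdd _) (norm_nonneg _) φ.C_nonneg

lemma wc_mul (φ ψ : Bd) (h k : ℝ) : wc φ h * wc ψ k = wc (φ.mulShift h ψ) (h + k) := by
  ext1 g
  apply Lp.ext
  filter_upwards [wc_ae φ h (wc ψ k g), shift_ae h (wc_ae ψ k g),
    wc_ae (φ.mulShift h ψ) (h + k) g] with x h1 h2 h3
  rw [mul_apply_eq_comp, h1, h2, h3, Bd.mulShift]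
  simp only
  rw [mul_assoc, add_assoc]

lemma wc_congr {φ ψ : Bd} {h k : ℝ} (hk : h = k) (hf : ∀ x, φ.f x = ψ.f x) :
    wc φ h = wc ψ k := by
  subst hk
  ext1 g
  apply Lp.ext
  filter_upwards [wc_ae φ h g, wc_ae ψ h g] with x h1 h2
  rw [h1, h2, hf]

/-- Complex conjugation. -/
noncomputable def Cj : L2 →L[ℝ] L2 := (Complex.conjCLE : ℂ →L[ℝ] ℂ).compLpL 2 volume

lemma Cj_ae (g : L2) : Cj g =ᵐ[volume] fun x => (starRingEnd ℂ) (g x) := by
  have := (Complex.conjCLE : ℂ →L[ℝ] ℂ).coeFn_compLpL (p := 2) (μ := volume) g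
  simpa [Cj] using this

lemma Cj_smul (c : ℂ) (g : L2) : Cj (c • g) = (starRingEnd ℂ c) • Cj g := by
  apply Lp.ext
  filter_upwards [Cj_ae (c • g), Cj_ae g, Lp.coeFn_smul c g,
    Lp.coeFn_smul (starRingEnd ℂ c) (Cj g)] with x h1 h2 h3 h4
  rw [h1, h3, h4, Pi.smul_apply, Pi.smul_apply, h2, smul_eq_mul, smul_eq_mul, map_mul]

end Pool.Agent.Lib.MP_0de7f2_an
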