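import Pool.Agent.Lib.MP_0de7f2_an.Conv

set_option autoImplicit false

open MeasureTheory Filter Topology ContinuousLinearMap Set

namespace Pool.Agent.Lib.MP_0de7f2_an

/-- Endpoints of cells. -/
def tq (m k : ℕ) : ℚ := (k : ℚ) / (m.factorial : ℚ) - m

lemma tq_succ (m k : ℕ) : ((tq m (k + 1) : ℚ) : ℝ) = (tq m k : ℚ) + 1 / (m.factorial : ℝ) := by
  unfold tq
  push_cast
  ring

lemma tq_le (m k : ℕ) : ((tq m k : ℚ) : ℝ) ≤ (tq m (k + 1) : ℚ) := by
  rw [tq_succ]
  have := fac_pos m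
  have : (0 : ℝ) ≤ 1 / (m.factorial : ℝ) := by positivity
  linarith

lemma tq_mul (m k : ℕ) : ((tq m k : ℚ) : ℝ) * m.factorial = ((k - m * m.factorial : ℤ) : ℝ) := by
  unfold tq
  push_cast
  have := fac_pos m
  field_simp

lemma tq_lev (m k : ℕ) : Lev m (tq m k : ℚ) := ⟨_, tq_mul m k⟩

lemma tq_zero (m : ℕ) : ((tq m 0 : ℚ) : ℝ) = -(m : ℝ) := by
  unfold tq; push_cast; simp

lemma tq_last (m : ℕ) : ((tq m (2 * m * m.factorial) : ℚ) : ℝ) = (m : ℝ) := by
  unfold tq
  push_cast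
  have := fac_pos m
  field_simp
  ring

/-- Cell projections. -/
noncomputable def del (m k : ℕ) : L2 →L[ℂ] L2 := Pr (tq m (k + 1) : ℚ) - Pr (tq m k : ℚ)

lemma tq_mono (m : ℕ) {k j : ℕ} (h : k ≤ j) : ((tq m k : ℚ) : ℝ) ≤ (tq m j : ℚ) := by
  unfold tq
  push_cast
  have := fac_pos m
  have h' : (k : ℝ) ≤ j := by exact_mod_cast h
  have : (k : ℝ) / m.factorial ≤ (j : ℝ) / m.factorial := by gcongr
  linarith

lemma Pr_idem (t : ℝ) : Pr t * Pr t = Pr t := Pr_mul_of_le le_rfl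

lemma del_mul_self (m k : ℕ) : del m k * del m k = del m k := by
  unfold del
  rw [mul_sub, sub_mul, sub_mul, Pr_idem, Pr_idem, Pr_mul_of_le' (tq_le m k),
    Pr_mul_of_le (tq_le m k)]
  abel

lemma del_mul_of_lt (m : ℕ) {k j : ℕ} (h : k < j) : del m k * del m j = 0 := by
  unfold del
  have h1 := tq_mono m (show k + 1 ≤ j from h)
  have h2 := h1.trans (tq_le m j)
  have h0 := tq_le m k
  rw [mul_sub, sub_mul, sub_mul, Pr_mul_of_le h1, Pr_mul_of_le h2, Pr_mul_of_le (h0.trans h2),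
    Pr_mul_of_le (h0.trans h1)]
  abel

lemma del_mul_of_gt (m : ℕ) {k j : ℕ} (h : j < k) : del m k * del m j = 0 := by
  unfold del
  have h1 := tq_mono m (show j + 1 ≤ k from h)
  have h2 := h1.trans (tq_le m k)
  have h0 := tq_le m j
  rw [mul_sub, sub_mul, sub_mul, Pr_mul_of_le' h1, Pr_mul_of_le' h2, Pr_mul_of_le' (h0.trans h2),
    Pr_mul_of_le' (h0.trans h1)]
  abel

lemma del_mul_of_ne (m : ℕ) {k j : ℕ} (h : k ≠ j) : del m k * del m j = 0 := by
  rcases lt_or_gt_of_ne h with h | h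
  · exact del_mul_of_lt m h
  · exact del_mul_of_gt m h

lemma del_mid (m k : ℕ) {x y : L2 →L[ℂ] L2} (hx : NN.Mem x) (hy : NN.Mem y) :
    del m k * (x * y) * del m k = (del m k * x * del m k) * (del m k * y * del m k) := by
  set P := Pr (tq m k : ℚ) with hP
  set Q := Pr (tq m (k + 1) : ℚ) with hQ
  set D := del m k with hD
  have hD' : D = Q - P := rfl
  have hPP : P * P = P := Pr_idem _
  have hQQ : Q * Q = Q := Pr_idem _
  have hQP : Q * P = P := Pr_mul_of_le' (tq_le m k)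
  have hPQ : P * Q = P := Pr_mul_of_le (tq_le m k)
  have hxP : x * P = P * (x * P) := hx (tq m k)
  have hyQ : y * Q = Q * (y * Q) := hy (tq m (k + 1))
  have hQD : Q * D = D := by rw [hD', mul_sub, hQQ, hQP]
  have hDP : D * P = 0 := by rw [hD', sub_mul, hQP, hPP, sub_self]
  have hDD : D * D = D := del_mul_self m k
  have hDxP : D * x * P = 0 := by
    rw [mul_assoc, hxP, ← mul_assoc, hDP, zero_mul]
  have hyD : y * D = Q * (y * D) := by
    calc y * D = y * (Q * D) := by rw [hQD]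
      _ = y * Q * D := by rw [mul_assoc]
      _ = Q * (y * Q) * D := by rw [← hyQ]
      _ = Q * (y * (Q * D)) := by simp only [mul_assoc]
      _ = Q * (y * D) := by rw [hQD]
  have hQ' : Q = D + P := by rw [hD']; abel
  calc D * (x * y) * D = D * x * (y * D) := by simp only [mul_assoc]
    _ = D * x * (Q * (y * D)) := by rw [← hyD]
    _ = D * x * ((D + P) * (y * D)) := by rw [← hQ']
    _ = D * x * D * (y * D) + D * x * P * (y * D) := by
        rw [add_mul, mul_add]; simp only [mul_assoc]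
    _ = D * x * D * (y * D) := by rw [hDxP, zero_mul, add_zero]
    _ = D * x * (D * D) * (y * D) := by rw [hDD]
    _ = (D * x * D) * (D * y * D) := by simp only [mul_assoc]

/-- The block compression. -/
noncomputable def Bc (m : ℕ) (x : L2 →L[ℂ] L2) : L2 →L[ℂ] L2 :=
  ∑ k ∈ Finset.range (2 * m * m.factorial), del m k * x * del m k

lemma Bc_mul (m : ℕ) {x y : L2 →L[ℂ] L2} (hx : NN.Mem x) (hy : NN.Mem y) :
    Bc m (x * y) = Bc m x * Bc m y := by
  unfold Bc
  rw [Finset.sum_mul_sum]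
  apply Finset.sum_congr rfl
  intro k hk
  rw [Finset.sum_eq_single k]
  · exact del_mid m k hx hy
  · intro j _ hj
    have : del m k * x * del m k * (del m j * y * del m j) =
        del m k * x * (del m k * del m j) * (y * del m j) := by simp only [mul_assoc]
    rw [this, del_mul_of_ne m hj.symm, mul_zero, zero_mul]
  · intro h; exact absurd hk h

/-- The asymptotic homomorphisms. -/
noncomputable def Th (m : ℕ) : (L2 →L[ℂ] L2) →ₗ[ℂ] (L2 →L[ℂ] L2) where
  toFun := fun x => Wi m * (Bc m x * Wo m)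
  map_add' := by
    intro x y
    simp only [Bc, mul_add, add_mul, Finset.sum_add_distrib]
  map_smul' := by
    intro c x
    simp only [Bc, mul_smul_comm, smul_mul_assoc, RingHom.id_apply, ← Finset.smul_sum]

lemma Th_apply (m : ℕ) (x : L2 →L[ℂ] L2) : Th m x = Wi m * (Bc m x * Wo m) := rfl

lemma Th_mul (m : ℕ) (x y : L2 →L[ℂ] L2) (hx : NN.Mem x) (hy : NN.Mem y) :
    Th m (x * y) = Th m x * Th m y := by
  rw [Th_apply, Th_apply, Th_apply, Bc_mul m hx hy]
  have : Wi m * (Bc m x * Wo m) * (Wi m * (Bc m y * Wo m)) =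
    Wi m * (Bc m x * (Wo m * Wi m) * (Bc m y * Wo m)) := by simp only [mul_assoc]
  rw [this, Wo_Wi, mul_one]
  simp only [mul_assoc]

/-- The window. -/
noncomputable def wi (m : ℕ) : L2 →L[ℂ] L2 := Pr m - Pr (-(m : ℝ))

lemma sum_del (m : ℕ) : ∑ k ∈ Finset.range (2 * m * m.factorial), del m k = wi m := by
  unfold del wi
  rw [Finset.sum_range_sub (fun k => Pr (tq m k : ℚ)), tq_last, tq_zero]

lemma wi_dg (m : ℕ) : NN.Dg (wi m) := by
  have h1 : wi m = NN.P m - NN.P (-(m : ℚ)) := by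
    unfold wi
    change _ = Pr ((m : ℚ) : ℝ) - Pr ((-(m : ℚ) : ℚ) : ℝ)
    push_cast
    rfl
  rw [h1, sub_eq_add_neg, ← neg_one_smul ℂ]
  exact NN.dg_add (NN.dg_P _) (NN.dg_smul _ (NN.dg_P _))

/-- Operators commuting with the cells. -/
lemma Bc_comm (m : ℕ) {x : L2 →L[ℂ] L2}
    (hx : ∀ k, x * Pr (tq m k : ℚ) = Pr (tq m k : ℚ) * x) : Bc m x = wi m * x := by
  unfold Bc
  rw [← sum_del, Finset.sum_mul]
  apply Finset.sum_congr rfl
  intro k _
  have : x * del m k = del m k * x := by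
    unfold del
    rw [mul_sub, sub_mul, hx, hx]
  rw [mul_assoc, this, ← mul_assoc, del_mul_self]

lemma Th_comm (m : ℕ) {x : L2 →L[ℂ] L2}
    (hx : ∀ k, x * Pr (tq m k : ℚ) = Pr (tq m k : ℚ) * x) (hW : x * Wo m = Wo m * x) :
    Th m x = wi m * x := by
  rw [Th_apply, Bc_comm m hx]
  have h1 : wi m * Wo m = Wo m * wi m := NN.comm _ _ (wi_dg m) (Wo_dg m)
  rw [mul_assoc (wi m), hW, ← mul_assoc (wi m), h1, ← mul_assoc, ← mul_assoc, Wi_Wo, one_mul]

lemma Th_dg (m : ℕ) {x : L2 →L[ℂ] L2} (hx : NN.Dg x) : Th m x = wi m * x :=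
  Th_comm m (fun k => hx _) (NN.comm _ _ hx (Wo_dg m))

lemma wi_norm (m : ℕ) : ‖wi m‖ ≤ 1 := wind_norm m

lemma Th_dg_bdd (x : L2 →L[ℂ] L2) (hx : NN.Dg x) : ∃ C : ℝ, ∀ m, ‖Th m x‖ ≤ C := by
  refine ⟨1 * ‖x‖, fun m => ?_⟩
  rw [Th_dg m hx]
  exact (norm_mul_le _ _).trans (mul_le_mul_of_nonneg_right (wi_norm m) (norm_nonneg _))

lemma Th_dg_tendsto (x : L2 →L[ℂ] L2) (hx : NN.Dg x) (ξ : L2) :
    Tendsto (fun m => Th m x ξ) atTop (𝓝 (x ξ)) := by
  have := wind_tendsto (x ξ)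
  refine this.congr fun m => ?_
  rw [Th_dg m hx]
  rfl

/-- Corners are eventually killed. -/
lemma Th_corner (t : ℚ) (x : L2 →L[ℂ] L2) :
    ∀ᶠ m in atTop, Th m (NN.P t * x * (1 - NN.P t)) = 0 := by
  filter_upwards [eventually_ge_atTop t.den] with m hm
  obtain ⟨j, hj⟩ := Lev_of_den hm
  have hBc : Bc m (NN.P t * x * (1 - NN.P t)) = 0 := by
    unfold Bc
    apply Finset.sum_eq_zero
    intro k _
    change del m k * (Pr t * x * (1 - Pr t)) * del m k = 0
    have hfp := fac_pos m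
    rcases le_or_gt j (k - m * m.factorial : ℤ) with h | h
    · -- t ≤ t_k
      have ht : (t : ℝ) ≤ (tq m k : ℚ) := by
        have : (t : ℝ) * m.factorial ≤ ((tq m k : ℚ) : ℝ) * m.factorial := by
          rw [hj, tq_mul]
          exact_mod_cast h
        exact le_of_mul_le_mul_right this hfp
      have h0 : del m k * Pr t = 0 := by
        unfold del
        rw [sub_mul, Pr_mul_of_le' ht, Pr_mul_of_le' (ht.trans (tq_le m k)), sub_self]
      have : del m k * (Pr t * x * (1 - Pr t)) * del m k =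
        (del m k * Pr t) * (x * (1 - Pr t)) * del m k := by simp only [mul_assoc]
      rw [this, h0, zero_mul, zero_mul]
    · have ht : ((tq m (k + 1) : ℚ) : ℝ) ≤ (t : ℝ) := by
        have : ((tq m (k + 1) : ℚ) : ℝ) * m.factorial ≤ (t : ℝ) * m.factorial := by
          rw [hj, tq_mul]
          have h' : (((k + 1 : ℕ) : ℤ) - m * m.factorial : ℤ) ≤ j := by
            push_cast
            omega
          exact_mod_cast h'
        exact le_of_mul_le_mul_right this hfp
      have h0 : (1 - Pr t) * del m k = 0 := by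
        unfold del
        rw [sub_mul, one_mul, mul_sub, Pr_mul_of_le' ht, Pr_mul_of_le' ((tq_le m k).trans ht),
          sub_self]
      rw [mul_assoc, mul_assoc (Pr t * x), h0, mul_zero, mul_zero]
  rw [Th_apply, hBc, zero_mul, mul_zero]

/-- Small cells kill large shifts. -/
lemma Th_Sh_lt {n m : ℕ} (h : n < m) : Th m (Sh n) = 0 := by
  have hBc : Bc m (Sh n) = 0 := by
    unfold Bc
    apply Finset.sum_eq_zero
    intro k _
    ext1 g
    apply Lp.ext
    have hstep : 1 / (m.factorial : ℝ) ≤ hh n := by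
      unfold hh
      have : (n + 1).factorial ≤ m.factorial := Nat.factorial_le h
      have h2 : ((n + 1).factorial : ℝ) ≤ (m.factorial : ℝ) := by exact_mod_cast this
      exact one_div_le_one_div_of_le (by positivity) h2
    have hts := tq_succ m k
    have hdel : ∀ f : L2, del m k f =ᵐ[volume] fun x =>
        (if (tq m k : ℚ) ≤ x ∧ x < ((tq m (k + 1) : ℚ) : ℝ) then 1 else 0) * f x := by
      intro f
      filter_upwards [Lp.coeFn_sub (Pr (tq m (k + 1) : ℚ) f) (Pr (tq m k : ℚ) f),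
        Pr_ae (tq m (k + 1) : ℚ) f, Pr_ae (tq m k : ℚ) f] with x h1 h2 h3
      unfold del
      rw [sub_apply, h1, Pi.sub_apply, h2, h3]
      by_cases c1 : x < ((tq m k : ℚ) : ℝ)
      · have c2 : x < ((tq m (k + 1) : ℚ) : ℝ) := lt_of_lt_of_le c1 (tq_le m k)
        simp [c1, c2, not_le.mpr c1]
      · by_cases c2 : x < ((tq m (k + 1) : ℚ) : ℝ)
        · simp [c1, c2, not_lt.mp c1]
        · simp [c1, c2]
    filter_upwards [hdel (Sh n (del m k g)), wc_ae (chiB n) (hh n) (del m k g),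
      shift_ae (hh n) (hdel g), Lp.coeFn_zero ℂ 2 (volume : Measure ℝ)] with x h1 h2 h3 h0
    rw [mul_apply_eq_comp, mul_apply_eq_comp, h1, Sh, h2, h3, zero_apply, h0, Pi.zero_apply]
    by_cases c1 : ((tq m k : ℚ) : ℝ) ≤ x
    · have c2 : ¬ (x + hh n < ((tq m (k + 1) : ℚ) : ℝ)) := by
        rw [hts]; linarith
      simp [c2]
    · simp [c1]
  rw [Th_apply, hBc, zero_mul, mul_zero]

lemma Th_Sh_eq (m : ℕ) : Th m (Sh m) = zz m • (wi m * Sh m) := by
  rw [Th_apply, Bc_comm m (fun k => Sh_comm_Pr (tq_lev m k)), mul_assoc (wi m), ← mul_assoc,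
    NN.comm _ _ (Wi_dg m) (wi_dg m), mul_assoc, Wi_Sh_Wo, mul_smul_comm]

end Pool.Agent.Lib.MP_0de7f2_an
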