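import Pool.Agent.Lib.MP_0de7f2_an.Ops

set_option autoImplicit false

open MeasureTheory Filter Topology ContinuousLinearMap Set

namespace Pool.Agent.Lib.MP_0de7f2_an

/-- The indicator of an interval. -/
noncomputable def chi (s t : ℝ) : L2 :=
  indicatorConstLp 2 (measurableSet_Ico : MeasurableSet (Ico s t)) (by simp) (1 : ℂ)

lemma chi_ae (s t : ℝ) : chi s t =ᵐ[volume] (Ico s t).indicator (fun _ => (1 : ℂ)) :=
  indicatorConstLp_coeFn

lemma inner_chi (s t : ℝ) (f : L2) : inner ℂ (chi s t) f = ∫ x in Ico s t, f x :=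
  L2.inner_indicatorConstLp_one _ _ f

lemma eq_zero_of_orth (f : L2) (h : ∀ s t : ℚ, inner ℂ (chi s t) f = 0) : f = 0 := by
  -- on each window
  have hw : ∀ n : ℕ, ∀ᵐ x : ℝ, x ∈ Ico (-(n : ℝ)) n → f x = 0 := by
    intro n
    set w : Set ℝ := Ico (-(n : ℝ)) n with hwdef
    have hwm : MeasurableSet w := measurableSet_Ico
    have hint : IntegrableOn f w := by
      have h1 : MemLp f 2 (volume.restrict w) := (Lp.memLp f).restrict w
      have : IsFiniteMeasure (volume.restrict w) := ⟨by simp [hwdef]⟩
      exact (h1.mono_exponent (by norm_num : (1 : ENNReal) ≤ 2)).integrable le_rfl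
    have hIco : ∀ s t : ℚ, ∫ x in Ico (s : ℝ) t, f x = 0 := by
      intro s t
      rw [← inner_chi, h]
    have hall : ∀ A : Set ℝ, MeasurableSet A → ∫ x in A, f x ∂(volume.restrict w) = 0 := by
      have hw0 : ∫ x, f x ∂(volume.restrict w) = 0 := by
        have := hIco (-(n : ℚ)) n
        push_cast at this
        exact this
      apply MeasurableSpace.induction_on_inter
        (C := fun A _ => ∫ x in A, f x ∂(volume.restrict w) = 0)
        (by rw [← Real.borel_eq_generateFrom_Iio_rat]; exact BorelSpace.measurable_eq)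
        Real.isPiSystem_Iio_rat
      · simp
      · intro A hA
        simp only [mem_iUnion, mem_singleton_iff] at hA
        obtain ⟨a, rfl⟩ := hA
        rw [Measure.restrict_restrict measurableSet_Iio]
        have : Iio (a : ℝ) ∩ w = Ico (((-(n : ℚ) : ℚ) : ℝ)) ((min a n : ℚ) : ℝ) := by
          ext x
          simp only [hwdef, mem_inter_iff, mem_Iio, mem_Ico]
          push_cast
          rw [lt_min_iff]
          tauto
        rw [this, hIco]
      · intro A hA hA0
        have := integral_add_compl hA (μ := volume.restrict w) (f := fun x => f x) hint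
        rw [hA0, hw0, zero_add] at this
        exact this
      · intro g hd hg h0
        rw [integral_iUnion hg hd hint.integrableOn]
        simp [h0]
    have := Integrable.ae_eq_zero_of_forall_setIntegral_eq_zero (μ := volume.restrict w) hint
      (fun A hA _ => hall A hA)
    rw [EventuallyEq, ae_restrict_iff' hwm] at this
    exact this
  apply Lp.ext
  have hall := ae_all_iff.mpr hw
  filter_upwards [hall, Lp.coeFn_zero ℂ 2 (volume : Measure ℝ)] with x hx h0
  rw [h0]
  obtain ⟨n, hn⟩ := exists_nat_gt |x|
  apply hx n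
  rw [abs_lt] at hn
  exact ⟨hn.1.le, hn.2⟩

/-- The total set. -/
def EE : Set L2 := {f | ∃ s t : ℚ, f = chi s t}

lemma total : (Submodule.span ℂ EE).topologicalClosure = ⊤ := by
  rw [Submodule.topologicalClosure_eq_top_iff, Submodule.eq_bot_iff]
  intro f hf
  apply eq_zero_of_orth
  intro s t
  exact (Submodule.mem_orthogonal _ _).mp hf _ (Submodule.subset_span ⟨s, t, rfl⟩)

/-- Induction principle: a closed submodule containing the total set is everything. -/
lemma mem_of_total (V : Submodule ℂ L2) (hV : IsClosed (V : Set L2)) (h : ∀ s t : ℚ, chi s t ∈ V)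
    (f : L2) : f ∈ V := by
  have h1 : Submodule.span ℂ EE ≤ V := by
    rw [Submodule.span_le]
    rintro _ ⟨s, t, rfl⟩
    exact h s t
  have h2 : (Submodule.span ℂ EE).topologicalClosure ≤ V :=
    Submodule.topologicalClosure_minimal _ h1 hV
  rw [total] at h2
  exact h2 trivial

/-- Strong convergence can be tested on the total set. -/
lemma tendsto_of_total (A : ℕ → L2 →L[ℂ] L2) (C : ℝ) (hC : ∀ m, ‖A m‖ ≤ C)
    (h : ∀ s t : ℚ, Tendsto (fun m => A m (chi s t)) atTop (𝓝 0)) (f : L2) :
    Tendsto (fun m => A m f) atTop (𝓝 0) := by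
  have hC0 : 0 ≤ C := (norm_nonneg _).trans (hC 0)
  let V : Submodule ℂ L2 :=
    { carrier := {g | Tendsto (fun m => A m g) atTop (𝓝 0)}
      add_mem' := by
        intro a b ha hb
        have := Tendsto.add (show Tendsto (fun m => A m a) atTop (𝓝 0) from ha)
          (show Tendsto (fun m => A m b) atTop (𝓝 0) from hb)
        simp only [add_zero] at this
        change Tendsto (fun m => A m (a + b)) atTop (𝓝 0)
        simpa only [map_add] using this
      zero_mem' := by
        change Tendsto (fun m => A m 0) atTop (𝓝 0)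
        simp only [map_zero]
        exact tendsto_const_nhds
      smul_mem' := by
        intro c a ha
        have := Tendsto.const_smul (show Tendsto (fun m => A m a) atTop (𝓝 0) from ha) c
        simp only [smul_zero] at this
        change Tendsto (fun m => A m (c • a)) atTop (𝓝 0)
        simpa only [map_smul] using this }
  apply mem_of_total V _ h f
  rw [isClosed_iff_clusterPt]
  intro g hg
  change Tendsto (fun m => A m g) atTop (𝓝 0)
  rw [Metric.tendsto_atTop]
  intro ε hε
  have hg' : g ∈ closure (V : Set L2) := mem_closure_iff_clusterPt.mpr hg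
  rw [Metric.mem_closure_iff] at hg'
  obtain ⟨g', hgV, hgd⟩ := hg' (ε / (2 * (C + 1))) (by positivity)
  have ht : Tendsto (fun m => A m g') atTop (𝓝 0) := hgV
  rw [Metric.tendsto_atTop] at ht
  obtain ⟨M, hM⟩ := ht (ε / 2) (by positivity)
  refine ⟨M, fun m hm => ?_⟩
  have h1 := hM m hm
  rw [dist_zero_right] at h1 ⊢
  have h2 : A m g = A m (g - g') + A m g' := by rw [map_sub, sub_add_cancel]
  rw [h2]
  have h3 : ‖A m (g - g')‖ ≤ C * ‖g - g'‖ := (A m).le_of_opNorm_le (hC m) _
  rw [dist_eq_norm] at hgd
  have h4 : C * ‖g - g'‖ ≤ (C + 1) * (ε / (2 * (C + 1))) :=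
    mul_le_mul (by linarith) hgd.le (norm_nonneg _) (by linarith)
  have h5 : (C + 1) * (ε / (2 * (C + 1))) = ε / 2 := by
    field_simp
  calc ‖A m (g - g') + A m g'‖ ≤ ‖A m (g - g')‖ + ‖A m g'‖ := norm_add_le _ _
    _ < ε / 2 + ε / 2 := by linarith
    _ = ε := by ring

end Pool.Agent.Lib.MP_0de7f2_an
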